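import Mathlib
import Pool.Agent.TH170.CM.Defs

/-!
# Signatures without relations
-/

set_option autoImplicit false

namespace Pool.Agent.Q29.OS

open NumberField Pool.Agent.TH170.CM

/-- The sign function of the type `Φ` with the weights `M` has no nontrivial antisymmetric linear
relations between its translates. -/
def NoRelations {E : Type} [Field E] [NumberField E] (M : (E →+* ℂ) → ℤ)
    (Φ : Set (E →+* ℂ)) : Prop :=
  ∀ c : (E →+* ℂ) → ℤ, (∀ φ, c (ComplexEmbedding.conjugate φ) = -c φ) →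
    (∀ σ : ℂ ≃+* ℂ, ∑ φ, c φ * (sgn Φ ((σ : ℂ →+* ℂ).comp φ) *
      M ((σ : ℂ →+* ℂ).comp φ)) = 0) → c = 0

/-- The function `e` on the embeddings and its translates satisfy no nontrivial antisymmetric linear
relation. -/
def NoRelationsOf {E : Type} [Field E] [NumberField E] (e : (E →+* ℂ) → ℤ) : Prop :=
  ∀ c : (E →+* ℂ) → ℤ, (∀ φ, c (ComplexEmbedding.conjugate φ) = -c φ) →
    (∀ σ : ℂ ≃+* ℂ, ∑ φ, c φ * e ((σ : ℂ →+* ℂ).comp φ) = 0) → c = 0

end Pool.Agent.Q29.OS
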