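import Mathlib
import Pool.Agent.Q29.OS.Rel
import Pool.Agent.H977R3.CM.Tower

/-!
# Towers of odd prime power index: relations modulo the prime
-/

set_option autoImplicit false
set_option linter.unusedSectionVars false

namespace Pool.Agent.Q29.OS

open NumberField Module Finset MulAction Pool.Agent.H204R3.CM Pool.Agent.H977R3.CM
  Pool.Agent.TH170.CM

theorem comp_conj {E : Type} [Field E] [NumberField E] [IsCMField E] (σ : ℂ ≃+* ℂ)
    (φ : E →+* ℂ) : (σ : ℂ →+* ℂ).comp (ComplexEmbedding.conjugate φ) =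
      ComplexEmbedding.conjugate ((σ : ℂ →+* ℂ).comp φ) := by
  ext x
  have h1 := IsCMField.complexEmbedding_complexConj E φ x
  have h2 := IsCMField.complexEmbedding_complexConj E ((σ : ℂ →+* ℂ).comp φ) x
  change σ (starRingEnd ℂ (φ x)) = starRingEnd ℂ (σ (φ x))
  rw [← h1]
  exact h2

theorem sgn_conj' {E : Type} [Field E] {Φ : Set (E →+* ℂ)} (hΦ : IsCMType Φ) (φ : E →+* ℂ) :
    sgn Φ (ComplexEmbedding.conjugate φ) = -sgn Φ φ := by
  have h1 := hΦ φ
  unfold sgn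
  by_cases h : φ ∈ Φ
  · rw [if_pos h, if_neg (h1.1 h)]
  · have h2 : ComplexEmbedding.conjugate φ ∈ Φ := by
      by_contra h3
      exact h (h1.2 h3)
    rw [if_neg h, if_pos h2]
    norm_num

theorem sgn_sq {E : Type} [Field E] (Φ : Set (E →+* ℂ)) (φ : E →+* ℂ) :
    sgn Φ φ = 1 ∨ sgn Φ φ = -1 := by
  unfold sgn
  split_ifs
  · exact Or.inl rfl
  · exact Or.inr rfl

section

variable {E₀ E : Type} [Field E₀] [NumberField E₀] [IsCMField E₀] [Field E] [NumberField E]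
  [IsCMField E] [Algebra E₀ E]

/-- A relation between the translates of an antisymmetric function gives a relation modulo `r` between
the translates of its sums over the fibres. -/
theorem tower_relation (r k : ℕ) (hr : r.Prime) (hdeg : finrank E₀ E = r ^ k)
    (hno : NoOrder E₀ r) {e c : (E →+* ℂ) → ℤ}
    (he : ∀ φ, e (ComplexEmbedding.conjugate φ) = -e φ)
    (hc : ∀ φ, c (ComplexEmbedding.conjugate φ) = -c φ)
    (hrel : ∀ σ : ℂ ≃+* ℂ, ∑ φ, c φ * e ((σ : ℂ →+* ℂ).comp φ) = 0) (hc0 : c ≠ 0) :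
    ∃ b : (E₀ →+* ℂ) → ZMod r, (∃ τ, b τ ≠ 0) ∧
      (∀ τ, b (ComplexEmbedding.conjugate τ) = -b τ) ∧
      ∀ σ : ℂ ≃+* ℂ, ∑ φ : E →+* ℂ, b (φ.comp (algebraMap E₀ E)) *
        ((e ((σ : ℂ →+* ℂ).comp φ) : ℤ) : ZMod r) = 0 := by
  classical
  have _ : Fact r.Prime := ⟨hr⟩
  obtain ⟨L, _, _, j, hj⟩ := exists_galois (fun _ : Unit => E)
  have h : ∀ ψ : E →+* ℂ, ∃ φ : E →+* L, j.comp φ = ψ := hj ()
  have h₀ : ∀ τ : E₀ →+* ℂ, ∃ y : E₀ →+* L, j.comp y = τ := by
    intro τ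
    obtain ⟨ψ, rfl⟩ := exists_extension (E := E) τ
    obtain ⟨φ, rfl⟩ := h ψ
    exact ⟨φ.comp (algebraMap E₀ E), rfl⟩
  have hb : Function.Bijective (fun φ : E →+* L => j.comp φ) :=
    ⟨fun φ φ' hφ => RingHom.ext fun x => j.injective (RingHom.congr_fun hφ x), h⟩
  have hb₀ : Function.Bijective (fun φ : E₀ →+* L => j.comp φ) :=
    ⟨fun φ φ' hφ => RingHom.ext fun x => j.injective (RingHom.congr_fun hφ x), h₀⟩
  let eq : (E →+* L) ≃ (E →+* ℂ) := Equiv.ofBijective _ hb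
  let eq₀ : (E₀ →+* L) ≃ (E₀ →+* ℂ) := Equiv.ofBijective _ hb₀
  have heq : ∀ x : E →+* L, eq x = j.comp x := fun x => rfl
  have heq₀ : ∀ x : E₀ →+* L, eq₀ x = j.comp x := fun x => rfl
  have hcb : ∀ x : E →+* L, j.comp (cbar x) = ComplexEmbedding.conjugate (j.comp x) := fun x =>
    comp_cbar j x
  have hcb₀ : ∀ x : E₀ →+* L, j.comp (cbar x) = ComplexEmbedding.conjugate (j.comp x) := fun x =>
    comp_cbar j x
  have hsmul : ∀ (g : L ≃ₐ[ℚ] L) (τ : ℂ ≃+* ℂ), (∀ x, τ (j x) = j (g x)) → ∀ x : E →+* L,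
      (τ : ℂ →+* ℂ).comp (j.comp x) = j.comp (g • x) := by
    intro g τ hg x
    ext y
    exact hg (x y)
  obtain ⟨b', ⟨y₀, hy₀⟩, hb1, hb2⟩ := core_tower (G := L ≃ₐ[ℚ] L) (R := E →+* L)
    (R₀ := E₀ →+* L) (inv := cbar) (inv₀ := cbar) (fun x => cbar_cbar x) (fun x => cbar_ne x)
    (fun g x => rfl) (fun φ => φ.comp (algebraMap E₀ E)) (fun g x => rfl)
    (fun x => cbar_restrict x j) r k (by rw [card_tower j h h₀, hdeg])
    (noOrder_gal j h₀ r hno) (fun x => e (j.comp x)) (fun x => c (j.comp x))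
    (fun x => by rw [hcb, he]) (fun x => by rw [hcb, hc]) (fun g => by
      obtain ⟨τ, hτ⟩ := Pool.Agent.H977R3.CM.exists_aut j (g : L ≃+* L)
      rw [← hrel τ]
      refine Fintype.sum_equiv eq _ _ fun x => ?_
      rw [heq, hsmul g τ hτ]) (by
      by_contra hne
      push Not at hne
      apply hc0
      funext φ
      obtain ⟨x, rfl⟩ := h φ
      exact hne x)
  obtain ⟨b, hb⟩ : ∃ b : (E₀ →+* ℂ) → ZMod r, ∀ τ, b τ = b' (eq₀.symm τ) := ⟨_, fun τ => rfl⟩
  refine ⟨b, ⟨eq₀ y₀, by rw [hb, Equiv.symm_apply_apply]; exact hy₀⟩, ?_, ?_⟩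
  · intro τ
    obtain ⟨y, rfl⟩ := h₀ τ
    have h1 : eq₀.symm (j.comp y) = y := eq₀.symm_apply_apply y
    have h2 : eq₀.symm (ComplexEmbedding.conjugate (j.comp y)) = cbar y := by
      rw [← hcb₀]
      exact eq₀.symm_apply_apply (cbar y)
    rw [hb, hb, h1, h2, hb1]
  · intro σ
    obtain ⟨g, hg⟩ := exists_gal j σ
    rw [← hb2 g]
    refine (Fintype.sum_equiv eq _ _ fun x => ?_).symm
    rw [heq, hsmul g σ hg]
    have h1 : eq₀.symm ((j.comp x).comp (algebraMap E₀ E)) = x.comp (algebraMap E₀ E) :=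
      eq₀.symm_apply_apply (x.comp (algebraMap E₀ E))
    rw [hb, h1]

end

section

variable {F E : Type} [Field F] [NumberField F] [IsCMField F] [Field E] [NumberField E]
  [IsCMField E] [Algebra F E]

theorem conj_ne' (τ : F →+* ℂ) : ComplexEmbedding.conjugate τ ≠ τ := by
  intro h
  have h2 := InfinitePlace.isReal_mk_iff.2 h
  exact (InfinitePlace.not_isReal_iff_isComplex.2
    (IsTotallyComplex.isComplex (InfinitePlace.mk τ))) h2

/-- The embeddings of an imaginary quadratic field. -/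
theorem embedding_quadratic (h2 : finrank ℚ F = 2) (τ τ' : F →+* ℂ) :
    τ' = τ ∨ τ' = ComplexEmbedding.conjugate τ := by
  classical
  by_contra hne
  push Not at hne
  have h3 : Fintype.card (F →+* ℂ) = 2 := by rw [Embeddings.card, h2]
  have h4 : ({τ, ComplexEmbedding.conjugate τ, τ'} : Finset (F →+* ℂ)).card = 3 := by
    rw [card_eq_three]
    exact ⟨τ, _, τ', (conj_ne' τ).symm, hne.1.symm, hne.2.symm, rfl⟩
  have h5 := card_le_univ ({τ, ComplexEmbedding.conjugate τ, τ'} : Finset (F →+* ℂ))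
  rw [h4, h3] at h5
  omega

theorem noOrder_quadratic (h2 : finrank ℚ F = 2) {r : ℕ} (hr : Odd r) : NoOrder F r := by
  intro σ hσ τ
  have hcomm : ∀ τ : F →+* ℂ, (σ : ℂ →+* ℂ).comp (ComplexEmbedding.conjugate τ) =
      ComplexEmbedding.conjugate ((σ : ℂ →+* ℂ).comp τ) := fun τ => comp_conj σ τ
  rcases embedding_quadratic h2 τ ((σ : ℂ →+* ℂ).comp τ) with h | h
  · exact h
  · exfalso
    have hcc : ComplexEmbedding.conjugate (ComplexEmbedding.conjugate τ) = τ :=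
      RingHom.ext fun x => Complex.conj_conj _
    have key : ∀ s : ℕ, ((σ ^ (2 * s + 1) : ℂ ≃+* ℂ) : ℂ →+* ℂ).comp τ =
        ComplexEmbedding.conjugate τ := by
      intro s
      induction s with
      | zero => simpa using h
      | succ s ih =>
        have h5 : ((σ ^ (2 * (s + 1) + 1) : ℂ ≃+* ℂ) : ℂ →+* ℂ).comp τ =
            (σ : ℂ →+* ℂ).comp ((σ : ℂ →+* ℂ).comp
              (((σ ^ (2 * s + 1) : ℂ ≃+* ℂ) : ℂ →+* ℂ).comp τ)) := by
          have h6 : 2 * (s + 1) + 1 = (2 * s + 1) + 1 + 1 := by ring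
          rw [h6, pow_succ' σ, pow_succ' σ]
          rfl
        rw [h5, ih, hcomm, h, hcc, h]
    obtain ⟨s, hs⟩ := hr
    have h7 := hσ τ
    rw [hs, key s] at h7
    exact conj_ne' τ h7

open Classical in
/-- **The law for odd primes.** -/
theorem noRelationsOf_prime (r k : ℕ) (hr : r.Prime) (hr2 : r ≠ 2) (h2 : finrank ℚ F = 2)
    (hdeg : finrank F E = r ^ k) {e : (E →+* ℂ) → ℤ}
    (he : ∀ φ, e (ComplexEmbedding.conjugate φ) = -e φ) (τ : F →+* ℂ)
    (hτ : ¬ (r : ℤ) ∣ ∑ φ : E →+* ℂ with φ.comp (algebraMap F E) = τ, e φ) :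
    NoRelationsOf e := by
  intro c hc hrel
  by_contra hc0
  have hodd : Odd r := hr.odd_of_ne_two hr2
  obtain ⟨b, ⟨τ₁, hτ₁⟩, hb1, hb2⟩ := tower_relation (E₀ := F) r k hr hdeg
    (noOrder_quadratic h2 hodd) he hc hrel hc0
  have _ : Fact r.Prime := ⟨hr⟩
  have hbτ : b τ ≠ 0 := by
    rcases embedding_quadratic h2 τ τ₁ with h | h
    · rw [← h]
      exact hτ₁
    · intro h0
      rw [h, hb1, h0, neg_zero] at hτ₁
      exact hτ₁ rfl
  have hcc : ∀ φ : E →+* ℂ, ComplexEmbedding.conjugate (ComplexEmbedding.conjugate φ) = φ :=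
    fun φ => RingHom.ext fun x => Complex.conj_conj _
  have hccF : ComplexEmbedding.conjugate (ComplexEmbedding.conjugate τ) = τ :=
    RingHom.ext fun x => Complex.conj_conj _
  have hres : ∀ φ : E →+* ℂ, (ComplexEmbedding.conjugate φ).comp (algebraMap F E) =
      ComplexEmbedding.conjugate (φ.comp (algebraMap F E)) := fun φ => rfl
  have h1 := hb2 (RingEquiv.refl ℂ)
  have h3 : ∀ φ : E →+* ℂ, ((RingEquiv.refl ℂ : ℂ ≃+* ℂ) : ℂ →+* ℂ).comp φ = φ := fun φ => rfl
  simp only [h3] at h1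
  have h4 : ∑ φ : E →+* ℂ, b (φ.comp (algebraMap F E)) * ((e φ : ℤ) : ZMod r) =
      2 * (b τ * ((∑ φ : E →+* ℂ with φ.comp (algebraMap F E) = τ, e φ : ℤ) : ZMod r)) := by
    rw [← sum_filter_add_sum_filter_not univ (fun φ : E →+* ℂ => φ.comp (algebraMap F E) = τ)]
    have h5 : ∑ φ : E →+* ℂ with ¬ φ.comp (algebraMap F E) = τ,
        b (φ.comp (algebraMap F E)) * ((e φ : ℤ) : ZMod r) =
        ∑ φ : E →+* ℂ with φ.comp (algebraMap F E) = τ,
          b (φ.comp (algebraMap F E)) * ((e φ : ℤ) : ZMod r) := by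
      refine sum_bij' (fun φ _ => ComplexEmbedding.conjugate φ)
        (fun φ _ => ComplexEmbedding.conjugate φ) ?_ ?_ (fun φ _ => hcc φ) (fun φ _ => hcc φ) ?_
      · intro φ hφ
        rw [mem_filter] at hφ ⊢
        refine ⟨mem_univ _, ?_⟩
        rw [hres]
        rcases embedding_quadratic h2 τ (φ.comp (algebraMap F E)) with h | h
        · exact absurd h hφ.2
        · rw [h, hccF]
      · intro φ hφ
        rw [mem_filter] at hφ ⊢
        refine ⟨mem_univ _, ?_⟩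
        rw [hres, hφ.2]
        exact conj_ne' τ
      · intro φ _
        rw [hres, hb1, he]
        push_cast
        ring
    rw [h5, ← two_mul]
    congr 1
    push_cast
    rw [mul_sum]
    exact sum_congr rfl fun φ hφ => by rw [(mem_filter.1 hφ).2]
  rw [h4] at h1
  have h6 : (2 : ZMod r) ≠ 0 := by
    intro h7
    have h8 : ((2 : ℕ) : ZMod r) = 0 := by exact_mod_cast h7
    rw [ZMod.natCast_eq_zero_iff] at h8
    have h9 := Nat.le_of_dvd two_pos h8
    have h10 := hr.two_le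
    omega
  have h7 := (mul_eq_zero.1 ((mul_eq_zero.1 h1).resolve_left h6)).resolve_left hbτ
  exact hτ ((ZMod.intCast_zmod_eq_zero_iff_dvd _ r).1 h7)

end

end Pool.Agent.Q29.OS
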