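import Mathlib
import Pool.Agent.Q29.DP.GoodFor
import Pool.Agent.Q29.DP.Deg
import Pool.Agent.Q29.DP.Laws
import Pool.Agent.Q29.OS.Tower

/-!
# One half of all types of the CM fields of degree `2 p ^ k` with an imaginary quadratic subfield
-/

set_option autoImplicit false
set_option linter.unusedSectionVars false

namespace Pool.Agent.Q29.OS

open NumberField Module Finset Pool.Agent.H204R3.CM Pool.Agent.H977R3.CM Pool.Agent.TH170.CM
  Pool.Agent.Q29.DP

section

variable {E : Type} [Field E] [NumberField E] [IsCMField E]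

open Classical in
theorem sum_flip {F : Type} [Field F] [NumberField F] [IsCMField F] [Algebra F E]
    (M : (E →+* ℂ) → ℤ) (Φ : Set (E →+* ℂ)) (ψ : E →+* ℂ) :
    ∑ φ : E →+* ℂ with φ.comp (algebraMap F E) = ψ.comp (algebraMap F E),
        sgn (flip ψ Φ) φ * M φ =
      ∑ φ : E →+* ℂ with φ.comp (algebraMap F E) = ψ.comp (algebraMap F E),
        sgn Φ φ * M φ - 2 * (sgn Φ ψ * M ψ) := by
  have hmem : ψ ∈ univ.filter (fun φ : E →+* ℂ =>
      φ.comp (algebraMap F E) = ψ.comp (algebraMap F E)) := mem_filter.2 ⟨mem_univ _, rfl⟩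
  rw [← add_sum_erase _ _ hmem, ← add_sum_erase _ _ hmem]
  have h1 : ∀ φ ∈ (univ.filter (fun φ : E →+* ℂ =>
      φ.comp (algebraMap F E) = ψ.comp (algebraMap F E))).erase ψ,
      sgn (flip ψ Φ) φ * M φ = sgn Φ φ * M φ := by
    intro φ hφ
    rw [mem_erase, mem_filter] at hφ
    congr 1
    have h2 : ¬ (φ = ψ ∨ φ = ComplexEmbedding.conjugate ψ) := by
      rintro (h3 | h3)
      · exact hφ.1 h3
      · rw [h3] at hφ
        have h4 : ComplexEmbedding.conjugate (ψ.comp (algebraMap F E)) =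
          ψ.comp (algebraMap F E) := hφ.2.2
        exact conj_ne' _ h4
    unfold sgn
    rw [mem_flip, if_neg h2]
  rw [sum_congr rfl h1]
  have h3 : sgn (flip ψ Φ) ψ = -sgn Φ ψ := by
    unfold sgn
    rw [mem_flip, if_pos (Or.inl rfl)]
    by_cases h4 : ψ ∈ Φ
    · simp [h4]
    · simp [h4]
  rw [h3]
  ring

/-- At least one half of all types have no relations. -/
theorem half_goodFor {F : IntermediateField ℚ E} [IsCMField F] {M : (E →+* ℂ) → ℤ} {g : ℕ}
    (hMc : ∀ φ, M (ComplexEmbedding.conjugate φ) = M φ) (hg : finrank ℚ E = 2 * g)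
    (hgood : GoodFor F M) :
    2 ^ g ≤ 2 * {Φ : Set (E →+* ℂ) | IsCMType Φ ∧ NoRelations M Φ}.ncard := by
  classical
  rcases hgood with ⟨hgood, hM⟩ | ⟨p, k, hp, hp2, hk, hF, hdeg, ψ, hψ⟩
  · exact half_of hM hg hgood _ fun Φ hΦ h => noRelations_of_test hM hMc hΦ h
  · have hgoodΦ : ∀ Φ : Set (E →+* ℂ), IsCMType Φ →
        ¬ (p : ℤ) ∣ ∑ φ : E →+* ℂ with
          φ.comp (algebraMap F E) = ψ.comp (algebraMap F E), sgn Φ φ * M φ →
        NoRelations M Φ := by
      intro Φ hΦ h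
      exact noRelationsOf_prime (F := F) p k hp hp2 hF hdeg (e := fun φ => sgn Φ φ * M φ)
        (fun φ => by rw [sgn_conj' hΦ, hMc, neg_mul]) _ h
    have hodd : IsCoprime (p : ℤ) 2 := by
      have h16 : Nat.Coprime p 2 := (Nat.coprime_primes hp Nat.prime_two).2 hp2
      exact_mod_cast Nat.isCoprime_iff_coprime.2 h16
    have hflip : ∀ Φ : Set (E →+* ℂ),
        (p : ℤ) ∣ ∑ φ : E →+* ℂ with
          φ.comp (algebraMap F E) = ψ.comp (algebraMap F E), sgn Φ φ * M φ →
        ¬ (p : ℤ) ∣ ∑ φ : E →+* ℂ with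
          φ.comp (algebraMap F E) = ψ.comp (algebraMap F E), sgn (flip ψ Φ) φ * M φ := by
      intro Φ h1 h2
      rw [sum_flip] at h2
      have h3 := (dvd_sub_right h1).1 h2
      have h4 := hodd.dvd_of_dvd_mul_left h3
      rcases sgn_sq Φ ψ with h5 | h5
      · rw [h5, one_mul] at h4
        exact hψ h4
      · rw [h5, neg_one_mul] at h4
        exact hψ ((dvd_neg).1 h4)
    rw [← ncard_cmTypes E hg]
    have h1 : {Φ : Set (E →+* ℂ) | IsCMType Φ}.ncard ≤
        {Φ : Set (E →+* ℂ) | IsCMType Φ ∧ NoRelations M Φ}.ncard +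
          {Φ : Set (E →+* ℂ) | IsCMType Φ ∧ ¬ NoRelations M Φ}.ncard := by
      refine le_trans (Set.ncard_le_ncard ?_ (Set.toFinite _)) (Set.ncard_union_le _ _)
      intro Φ hΦ
      by_cases h : NoRelations M Φ
      · exact Or.inl ⟨hΦ, h⟩
      · exact Or.inr ⟨hΦ, h⟩
    have h2 : {Φ : Set (E →+* ℂ) | IsCMType Φ ∧ ¬ NoRelations M Φ}.ncard ≤
        {Φ : Set (E →+* ℂ) | IsCMType Φ ∧ NoRelations M Φ}.ncard := by
      refine Set.ncard_le_ncard_of_injOn (flip ψ) ?_ ?_ (Set.toFinite _)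
      · rintro Φ ⟨h4, h5⟩
        have h6 : (p : ℤ) ∣ ∑ φ : E →+* ℂ with
            φ.comp (algebraMap F E) = ψ.comp (algebraMap F E), sgn Φ φ * M φ := by
          by_contra h7
          exact h5 (hgoodΦ Φ h4 h7)
        exact ⟨isCMType_flip ψ h4, hgoodΦ _ (isCMType_flip ψ h4) (hflip Φ h6)⟩
      · intro Φ _ Φ' _ h4
        have h5 := congrArg (flip ψ) h4
        rwa [DP.flip_flip, DP.flip_flip] at h5
    omega

end

end Pool.Agent.Q29.OS
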