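import Mathlib
import Pool.Agent.H977R3.CM.Defs
import Pool.Agent.H977R3.CM.Indep
import Pool.Agent.H977R3.CM.Tower
import Pool.Agent.H204R3.CM.Nondeg
import Pool.Agent.TH170.CM.Defs

/-!
# Characters of products of fields, and relations for families of independent fields
-/

set_option autoImplicit false
set_option linter.unusedSectionVars false

namespace Pool.Agent.Q29.OS

open NumberField Module Finset Pool.Agent.H204R3.CM Pool.Agent.H977R3.CM

/-- The character of the product given by an embedding of a factor. -/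
def chr {ι : Type} {E : ι → Type} [∀ i, Field (E i)] (i : ι) (φ : E i →+* ℂ) :
    (∀ i, E i) →+* ℂ := φ.comp (Pi.evalRingHom E i)

theorem chr_apply {ι : Type} {E : ι → Type} [∀ i, Field (E i)] (i : ι) (φ : E i →+* ℂ)
    (x : ∀ i, E i) : chr i φ x = φ (x i) := rfl

theorem exists_chr {ι : Type} [Finite ι] {E : ι → Type} [∀ i, Field (E i)]
    (χ : (∀ i, E i) →+* ℂ) : ∃ (i : ι) (φ : E i →+* ℂ), χ = chr i φ := by
  classical
  have := Fintype.ofFinite ι
  have h1 : ∃ i, χ (Pi.single i 1) ≠ 0 := by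
    by_contra hne
    push Not at hne
    have h2 : χ 1 = 0 := by
      have h3 : (1 : ∀ i, E i) = ∑ i, Pi.single i 1 := by
        funext j
        rw [Finset.sum_apply, Finset.sum_eq_single j]
        · simp
        · intro b _ hb
          rw [Pi.single_eq_of_ne hb.symm]
        · intro h
          exact absurd (mem_univ j) h
      rw [h3, map_sum]
      exact sum_eq_zero fun i _ => hne i
    rw [map_one] at h2
    exact one_ne_zero h2
  obtain ⟨i, hi⟩ := h1
  have h2 : χ (Pi.single i 1) = 1 := by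
    have h3 : χ (Pi.single i 1) * χ (Pi.single i 1) = χ (Pi.single i 1) := by
      rw [← map_mul, ← Pi.single_mul, one_mul]
    exact mul_left_cancel₀ hi (h3.trans (mul_one _).symm)
  let φ : E i →+* ℂ :=
    { toFun := fun y => χ (Pi.single i y)
      map_one' := h2
      map_mul' := fun a b => by rw [Pi.single_mul, map_mul]
      map_zero' := by rw [Pi.single_zero, map_zero]
      map_add' := fun a b => by rw [Pi.single_add, map_add] }
  refine ⟨i, φ, RingHom.ext fun x => ?_⟩
  have h4 : x * Pi.single i 1 = Pi.single i (x i) := by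
    funext j
    by_cases hj : j = i
    · subst hj
      simp
    · rw [Pi.mul_apply, Pi.single_eq_of_ne hj, Pi.single_eq_of_ne hj, mul_zero]
  calc χ x = χ x * χ (Pi.single i 1) := by rw [h2, mul_one]
    _ = χ (Pi.single i (x i)) := by rw [← map_mul, h4]
    _ = φ (x i) := rfl

theorem chr_injective {ι : Type} {E : ι → Type} [∀ i, Field (E i)] {i j : ι}
    {φ : E i →+* ℂ} {ψ : E j →+* ℂ} (h : chr i φ = chr j ψ) : (⟨i, φ⟩ : Σ i, (E i →+* ℂ)) = ⟨j, ψ⟩ := by
  classical
  have hij : i = j := by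
    by_contra hne
    have h1 := congrArg (fun χ : (∀ i, E i) →+* ℂ => χ (Pi.single i 1)) h
    simp only [chr_apply, Pi.single_eq_same, map_one, Pi.single_eq_of_ne (Ne.symm hne),
      map_zero] at h1
    exact one_ne_zero h1
  subst hij
  congr 1
  ext x
  have h1 := congrArg (fun χ : (∀ i, E i) →+* ℂ => χ (Pi.single i x)) h
  simpa only [chr_apply, Pi.single_eq_same] using h1

/-- The characters of the product. -/
noncomputable def chrEquiv {ι : Type} [Finite ι] (E : ι → Type) [∀ i, Field (E i)] :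
    (Σ i, (E i →+* ℂ)) ≃ ((∀ i, E i) →+* ℂ) :=
  Equiv.ofBijective (fun p => chr p.1 p.2) ⟨fun p q h => chr_injective h, fun χ => by
    obtain ⟨i, φ, h⟩ := exists_chr χ
    exact ⟨⟨i, φ⟩, h.symm⟩⟩

theorem chrEquiv_apply {ι : Type} [Finite ι] {E : ι → Type} [∀ i, Field (E i)]
    (p : Σ i, (E i →+* ℂ)) : chrEquiv E p = chr p.1 p.2 := rfl

theorem comp_chr {ι : Type} {E : ι → Type} [∀ i, Field (E i)] (i : ι) (φ : E i →+* ℂ)
    (f : ℂ →+* ℂ) : f.comp (chr i φ) = chr i (f.comp φ) := rfl

/-- A relation for a family of pairwise independent fields is a relation for each of them. -/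
theorem relation_splits {ι : Type} [Fintype ι] {E : ι → Type} [∀ i, Field (E i)]
    [∀ i, NumberField (E i)] [∀ i, IsCMField (E i)] (hind : PairwiseIndep E)
    {D : ∀ i, (E i →+* ℂ) → ℤ} (hD : ∀ i φ, D i (ComplexEmbedding.conjugate φ) = -D i φ)
    {m : ∀ i, (E i →+* ℂ) → ℤ}
    (hrel : ∀ σ : ℂ ≃+* ℂ, ∑ i, ∑ φ, m i φ * D i ((σ : ℂ →+* ℂ).comp φ) = 0) (i : ι)
    (σ : ℂ ≃+* ℂ) : ∑ φ, m i φ * D i ((σ : ℂ →+* ℂ).comp φ) = 0 := by
  classical
  obtain ⟨L, _, _, j, hj⟩ := exists_galois E
  have hb : ∀ i, Function.Bijective (fun φ : E i →+* L => j.comp φ) := by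
    intro i
    constructor
    · intro φ φ' h
      exact RingHom.ext fun x => j.injective (RingHom.congr_fun h x)
    · exact hj i
  let e : ∀ i, (E i →+* L) ≃ (E i →+* ℂ) := fun i => Equiv.ofBijective _ (hb i)
  have he : ∀ i (x : E i →+* L), e i x = j.comp x := fun i x => rfl
  have key : ∀ (g : L ≃ₐ[ℚ] L) (τ : ℂ ≃+* ℂ), (∀ x, τ (j x) = j (g x)) → ∀ i,
      ∑ φ, m i φ * D i ((τ : ℂ →+* ℂ).comp φ) =
        ∑ x : E i →+* L, m i (j.comp x) * D i (j.comp (g • x)) := by
    intro g τ hg i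
    refine (Fintype.sum_equiv (e i) _ _ fun x => ?_).symm
    rw [he]
    congr 2
    ext y
    exact (hg (x y)).symm
  obtain ⟨g, hg⟩ := exists_gal j σ
  rw [key g σ hg i]
  refine indep (G := L ≃ₐ[ℚ] L) (fun i => E i →+* L) (fun i => cbar)
    (fun i φ => D i (j.comp φ)) (fun i φ => ?_)
    (fun g i φ => rfl) ?_ (fun i x => m i (j.comp x)) (fun g => ?_) i g
  · have h2 : j.comp (cbar φ) = ComplexEmbedding.conjugate (j.comp φ) := comp_cbar j φ
    change D i (j.comp (cbar φ)) = _
    rw [h2, hD]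
  · intro i i' hii φ ψ
    obtain ⟨σ, hσ1, hσ2⟩ := hind i i' hii (j.comp φ) (j.comp ψ)
    obtain ⟨g, hg⟩ := exists_gal j σ
    refine ⟨g, RingHom.ext fun x => ?_, RingHom.ext fun x => ?_⟩
    · apply j.injective
      rw [emb_smul_apply, ← hg]
      exact hσ1 x
    · apply j.injective
      rw [emb_smul_apply, ← hg]
      have h1 := RingHom.congr_fun (comp_cbar j ψ) x
      rw [ComplexEmbedding.conjugate_coe_eq] at h1
      exact (hσ2 x).trans h1.symm
  · obtain ⟨τ, hτ⟩ := Pool.Agent.H977R3.CM.exists_aut j (g : L ≃+* L)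
    rw [← hrel τ]
    exact sum_congr rfl fun i _ => (key g τ hτ i).symm

end Pool.Agent.Q29.OS
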