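import Mathlib
import Pool.Agent.W437.HC.Hodge
import Pool.Agent.H194R3.CM.Defs
import Pool.Agent.TH170.CM.Defs

/-!
# Abelian varieties with a given centre of the endomorphism algebra and given signature
-/

set_option autoImplicit false

namespace Pool.Agent.Q29.OS

open NumberField Module Pool.Agent.H204R3.CM Pool.Agent.H194R3.CM Pool.Agent.W437.HC
  Pool.Agent.TH170.CM

section

variable {g : ℕ} (Z : Matrix (Fin g) (Fin g) ℂ)

/-- The map from the rational homology of the abelian variety `ℂ ^ g / (ℤ ^ g + Z ℤ ^ g)` to the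
tangent space: it maps `(a, b)` to `a + Z b`. -/
noncomputable def toTangent (w : Fin g ⊕ Fin g → ℚ) : Fin g → ℂ :=
  fun i => (w (Sum.inl i) : ℂ) + ∑ k, Z i k * (w (Sum.inr k) : ℂ)

/-- The rational matrix `ψ` is an endomorphism (with rational coefficients) of the abelian variety
`ℂ ^ g / (ℤ ^ g + Z ℤ ^ g)`, and the complex matrix `N` is its action on the tangent space. -/
def IsEndomorphism (ψ : Matrix (Fin g ⊕ Fin g) (Fin g ⊕ Fin g) ℚ)
    (N : Matrix (Fin g) (Fin g) ℂ) : Prop :=
  ∀ w : Fin g ⊕ Fin g → ℚ, toTangent Z (ψ.mulVec w) = N.mulVec (toTangent Z w)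

variable {A : Type} [CommRing A]

/-- `θ` maps the commutative ring `A` onto the centre of the endomorphism algebra of the abelian
variety. -/
structure IsCentre (θ : A →+* Matrix (Fin g ⊕ Fin g) (Fin g ⊕ Fin g) ℚ) : Prop where
  endo : ∀ a, ∃ N, IsEndomorphism Z (θ a) N
  comm : ∀ a ψ N, IsEndomorphism Z ψ N → θ a * ψ = ψ * θ a
  onto : ∀ ψ N, IsEndomorphism Z ψ N →
    (∀ φ N', IsEndomorphism Z φ N' → ψ * φ = φ * ψ) → ∃ a, θ a = ψ

variable (θ : A →+* Matrix (Fin g ⊕ Fin g) (Fin g ⊕ Fin g) ℚ)

/-- The tangent vectors on which `A` acts through the character `χ`. -/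
def eigenspace (χ : A →+* ℂ) : Submodule ℂ (Fin g → ℂ) where
  carrier := {t | ∀ (a : A) (N : Matrix (Fin g) (Fin g) ℂ), IsEndomorphism Z (θ a) N →
    N.mulVec t = χ a • t}
  zero_mem' := fun a N _ => by rw [Matrix.mulVec_zero, smul_zero]
  add_mem' := fun {s t} hs ht a N h => by rw [Matrix.mulVec_add, hs a N h, ht a N h, smul_add]
  smul_mem' := fun c t ht a N h => by rw [Matrix.mulVec_smul, ht a N h, smul_comm]

/-- The component of the endomorphism algebra with complex coefficients on which `A` acts through the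
character `χ`; it is a matrix algebra if `A` maps onto the centre. -/
def component (χ : A →+* ℂ) : Submodule ℂ (Matrix (Fin g ⊕ Fin g) (Fin g ⊕ Fin g) ℂ) where
  carrier := {c | c ∈ Submodule.span ℂ
      {d | ∃ ψ N, IsEndomorphism Z ψ N ∧ d = ψ.map (fun x : ℚ => (x : ℂ))} ∧
    ∀ a, (θ a).map (fun x : ℚ => (x : ℂ)) * c = χ a • c}
  zero_mem' := ⟨Submodule.zero_mem _, fun a => by rw [mul_zero, smul_zero]⟩
  add_mem' := fun {x y} hx hy => ⟨Submodule.add_mem _ hx.1 hy.1, fun a => by
    rw [mul_add, hx.2, hy.2, smul_add]⟩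
  smul_mem' := fun c x hx => ⟨Submodule.smul_mem _ _ hx.1, fun a => by
    rw [Matrix.mul_smul, hx.2, smul_comm]⟩

/-- The relative multiplicity of the character `χ`: the dimension of the space of the tangent vectors
on which the centre acts through `χ`, divided by the size of the matrix algebra `component Z θ χ`
(the square root of its dimension). If the endomorphism algebra is a field this is the multiplicity
of `χ` in the tangent space. -/
noncomputable def relMult (χ : A →+* ℂ) : ℕ :=
  finrank ℂ (eigenspace Z θ χ) / Nat.sqrt (finrank ℂ (component Z θ χ))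

end

variable {ι : Type} (E : ι → Type) [∀ i, Field (E i)]

/-- The centre of the endomorphism algebra of the abelian variety with the period matrix `Z`
(symmetric, with positive definite imaginary part; every complex abelian variety is isogenous to one
of this form) is the product of the fields `E i` and of a ring `R`. The ring `R` has only real
characters, and their relative multiplicities are one: this part belongs to elliptic curves without
complex multiplication, to Hilbert-Blumenthal varieties and to their analogues with quaternionic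
multiplication; it may be zero. For each embedding `φ` of `E i` the relative multiplicity of `φ` in
the tangent space is `(m i + M i φ) / 2` if `φ` belongs to `Φ i`, and `(m i - M i φ) / 2` otherwise;
so the relative rank at `E i` is `m i`. -/
structure HasSignature {g : ℕ} (Z : Matrix (Fin g) (Fin g) ℂ) {R : Type} [CommRing R]
    (θ : (∀ i, E i) × R →+* Matrix (Fin g ⊕ Fin g) (Fin g ⊕ Fin g) ℚ) (m : ι → ℕ)
    (M : ∀ i, (E i →+* ℂ) → ℤ) (Φ : ∀ i, Set (E i →+* ℂ)) : Prop where
  symm : Z.transpose = Z
  pos : (Z.map Complex.im).PosDef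
  centre : IsCentre Z θ
  mult : ∀ i φ, 2 * (relMult Z θ ((φ.comp (Pi.evalRingHom E i)).comp (RingHom.fst _ _)) : ℤ) =
    m i + sgn (Φ i) φ * M i φ
  real : ∀ χ : R →+* ℂ, (starRingEnd ℂ).comp χ = χ
  one : ∀ χ : R →+* ℂ, relMult Z θ (χ.comp (RingHom.snd _ _)) = 1

/-- On all powers of all abelian varieties with the signature `m`, `M`, `Φ` all rational Hodge classes
are linear combinations of products of rational Hodge classes of degree two; so (with the theorem of
Lefschetz) the Hodge conjecture holds for them. -/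
def HodgeForSignature (m : ι → ℕ) (M : ∀ i, (E i →+* ℂ) → ℤ) (Φ : ∀ i, Set (E i →+* ℂ)) :
    Prop :=
  ∀ (g : ℕ) (Z : Matrix (Fin g) (Fin g) ℂ) (R : Type) [CommRing R]
    (θ : (∀ i, E i) × R →+* Matrix (Fin g ⊕ Fin g) (Fin g ⊕ Fin g) ℚ),
    HasSignature E Z θ m M Φ → ∀ (n k : ℕ) (f : (Fin n → Fin g ⊕ Fin g → ℚ) [⋀^Fin k × Fin 2]→ₗ[ℚ] ℚ),
      IsHodge (perPow Z n) f → f ∈ divisorial (perPow Z n) k

/-- Admissible weights for the relative rank `m`. The numbers `(m + M φ) / 2` and `(m - M φ) / 2` are
natural numbers, not equal, and they do not change if `φ` is replaced by its complex conjugate; at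
one place they are coprime; and if `m > 1` then they are positive at all places (no place is
definite), or the weights separate the places (for instance, all places but one are definite). -/
def Admissible {E : Type} [Field E] (m : ℕ) (M : (E →+* ℂ) → ℤ) : Prop :=
  (∀ φ, 0 < M φ ∧ M φ ≤ m ∧ Even (m + M φ) ∧ M (ComplexEmbedding.conjugate φ) = M φ) ∧
  (∃ φ, IsCoprime ((m + M φ) / 2) ((m - M φ) / 2)) ∧
  (m = 1 ∨ (∀ φ, M φ < m) ∨ ∀ φ ψ, ψ ≠ φ → ψ ≠ ComplexEmbedding.conjugate φ →
    ∃ σ : ℂ ≃+* ℂ, M ((σ : ℂ →+* ℂ).comp φ) ≠ M ((σ : ℂ →+* ℂ).comp ψ))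

end Pool.Agent.Q29.OS
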