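import Mathlib
import Pool.Agent.Q29.OS.Chars

/-!
# Characters of products with a ring that has only real characters
-/

set_option autoImplicit false
set_option linter.unusedSectionVars false

namespace Pool.Agent.Q29.OS

open Finset

section

variable {B R : Type} [CommRing B] [CommRing R]

/-- A character of a product is a character of one of the factors. -/
theorem exists_factor (χ : B × R →+* ℂ) :
    (∃ ψ : B →+* ℂ, χ = ψ.comp (RingHom.fst B R)) ∨
      ∃ ψ : R →+* ℂ, χ = ψ.comp (RingHom.snd B R) := by
  have h1 : χ (1, 0) * χ (1, 0) = χ (1, 0) := by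
    rw [← map_mul]
    congr 1
    ext <;> simp
  have h2 : χ (1, 0) + χ (0, 1) = 1 := by
    rw [← map_add, ← map_one χ]
    congr 1
    ext <;> simp
  by_cases h : χ (1, 0) = 0
  · right
    have h3 : χ (0, 1) = 1 := by rwa [h, zero_add] at h2
    let ψ : R →+* ℂ :=
      { toFun := fun y => χ (0, y)
        map_one' := h3
        map_mul' := fun a b => by
          rw [← map_mul]
          congr 1
          ext <;> simp
        map_zero' := by
          rw [← map_zero χ]
          rfl
        map_add' := fun a b => by
          rw [← map_add]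
          congr 1
          ext <;> simp }
    refine ⟨ψ, RingHom.ext fun x => ?_⟩
    calc χ x = χ x * χ (0, 1) := by rw [h3, mul_one]
      _ = χ (0, x.2) := by
        rw [← map_mul]
        congr 1
        ext <;> simp
      _ = (ψ.comp (RingHom.snd B R)) x := rfl
  · left
    have h3 : χ (1, 0) = 1 := mul_left_cancel₀ h (h1.trans (mul_one _).symm)
    let ψ : B →+* ℂ :=
      { toFun := fun y => χ (y, 0)
        map_one' := h3
        map_mul' := fun a b => by
          rw [← map_mul]
          congr 1
          ext <;> simp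
        map_zero' := by
          rw [← map_zero χ]
          rfl
        map_add' := fun a b => by
          rw [← map_add]
          congr 1
          ext <;> simp }
    refine ⟨ψ, RingHom.ext fun x => ?_⟩
    calc χ x = χ x * χ (1, 0) := by rw [h3, mul_one]
      _ = χ (x.1, 0) := by
        rw [← map_mul]
        congr 1
        ext <;> simp
      _ = (ψ.comp (RingHom.fst B R)) x := rfl

theorem comp_fst_injective {ψ ψ' : B →+* ℂ}
    (h : ψ.comp (RingHom.fst B R) = ψ'.comp (RingHom.fst B R)) : ψ = ψ' := by
  ext x
  exact RingHom.congr_fun h (x, 0)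

theorem comp_fst_ne (ψ : B →+* ℂ) (ψ' : R →+* ℂ) :
    ψ.comp (RingHom.fst B R) ≠ ψ'.comp (RingHom.snd B R) := by
  intro h
  have h1 := RingHom.congr_fun h (1, 0)
  change ψ 1 = ψ' 0 at h1
  rw [map_one, map_zero] at h1
  exact one_ne_zero h1

/-- An odd function on the characters of a product with a ring `R` with only real characters is in
the span of a family of functions which vanish on the characters of `R`, if its restriction to the
characters of the other factor is in the span of the restrictions. -/
theorem mem_span_of_fst {Γ : Type*} (u : Γ → (B × R →+* ℂ) → ℚ)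
    (hu : ∀ γ (ψ : R →+* ℂ), u γ (ψ.comp (RingHom.snd B R)) = 0)
    (h : (B × R →+* ℂ) → ℚ) (hh : ∀ ψ : R →+* ℂ, h (ψ.comp (RingHom.snd B R)) = 0)
    (hspan : (fun ψ : B →+* ℂ => h (ψ.comp (RingHom.fst B R))) ∈
      Submodule.span ℚ (Set.range fun (γ : Γ) (ψ : B →+* ℂ) =>
        u γ (ψ.comp (RingHom.fst B R)))) :
    h ∈ Submodule.span ℚ (Set.range u) := by
  classical
  -- restriction to the characters of the first factor is injective on the functions that vanish
  -- on the others
  let ρ : ((B × R →+* ℂ) → ℚ) →ₗ[ℚ] ((B →+* ℂ) → ℚ) :=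
    { toFun := fun v ψ => v (ψ.comp (RingHom.fst B R))
      map_add' := fun v w => rfl
      map_smul' := fun c v => rfl }
  let S : Submodule ℚ ((B × R →+* ℂ) → ℚ) :=
    { carrier := {v | ∀ ψ : R →+* ℂ, v (ψ.comp (RingHom.snd B R)) = 0}
      zero_mem' := fun ψ => rfl
      add_mem' := fun {v w} hv hw ψ => by rw [Pi.add_apply, hv, hw, add_zero]
      smul_mem' := fun c v hv ψ => by rw [Pi.smul_apply, hv, smul_zero] }
  have h1 : Submodule.span ℚ (Set.range u) ≤ S := by
    rw [Submodule.span_le]
    rintro _ ⟨γ, rfl⟩
    exact hu γ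
  have h2 : Set.range (fun (γ : Γ) (ψ : B →+* ℂ) => u γ (ψ.comp (RingHom.fst B R))) =
      ρ '' Set.range u := by
    rw [← Set.range_comp]
    rfl
  rw [h2, ← Submodule.map_span] at hspan
  obtain ⟨v, hv, hvh⟩ := hspan
  have h3 : v = h := by
    funext χ
    obtain ⟨ψ, rfl⟩ | ⟨ψ, rfl⟩ := exists_factor χ
    · exact congrFun hvh ψ
    · rw [h1 hv ψ, hh]
  rw [← h3]
  exact hv

end

end Pool.Agent.Q29.OS
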