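import Mathlib

/-!
# Functions without relations span
-/

set_option autoImplicit false

namespace Pool.Agent.Q29.OS

open Finset

theorem mem_span_of_noRel {X Γ : Type*} [Fintype X] [DecidableEq X] (bar : X → X)
    (hbar : ∀ x, bar (bar x) = x) (act : Γ → X → X) (D : X → ℤ)
    (hD : ∀ γ x, D (act γ (bar x)) = -D (act γ x))
    (hno : ∀ m : X → ℤ, (∀ x, m (bar x) = -m x) → (∀ γ, ∑ x, m x * D (act γ x) = 0) → m = 0)
    (h : X → ℚ) (hh : ∀ x, h (bar x) = -h x) :
    h ∈ Submodule.span ℚ (Set.range fun (γ : Γ) (x : X) => (D (act γ x) : ℚ)) := by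
  by_contra hne
  obtain ⟨f, hf0, hf⟩ := Submodule.exists_le_ker_of_notMem hne
  let a : X → ℚ := fun x => f (Pi.single x 1)
  have hfa : ∀ u : X → ℚ, f u = ∑ x, a x * u x := by
    intro u
    have h1 : u = ∑ x, u x • Pi.single x (1 : ℚ) := by
      funext y
      rw [Finset.sum_apply, sum_eq_single y]
      · simp
      · intro b _ hb
        simp [Pi.single_eq_of_ne hb.symm]
      · intro h
        exact absurd (mem_univ y) h
    conv_lhs => rw [h1]
    rw [map_sum]
    refine sum_congr rfl fun x _ => ?_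
    rw [map_smul, smul_eq_mul, mul_comm]
  let m : X → ℚ := fun x => a x - a (bar x)
  have hm : ∀ u : X → ℚ, (∀ x, u (bar x) = -u x) → ∑ x, m x * u x = 2 * f u := by
    intro u hu
    have h1 : ∑ x, a (bar x) * u x = -f u := by
      rw [hfa, ← sum_neg_distrib]
      let e : X ≃ X := ⟨bar, bar, hbar, hbar⟩
      refine Fintype.sum_equiv e _ _ fun x => ?_
      change a (bar x) * u x = -(a (bar x) * u (bar x))
      rw [hu]
      ring
    have h2 : ∑ x, m x * u x = ∑ x, a x * u x - ∑ x, a (bar x) * u x := by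
      rw [← sum_sub_distrib]
      exact sum_congr rfl fun x _ => sub_mul _ _ _
    rw [h2, h1, ← hfa]
    ring
  obtain ⟨b, hb⟩ := IsLocalization.exist_integer_multiples_of_finset (nonZeroDivisors ℤ)
    (univ.image m)
  have hb1 : ∀ x, ∃ n : ℤ, (n : ℚ) = (b : ℤ) * m x := by
    intro x
    obtain ⟨n, hn⟩ := hb (m x) (mem_image_of_mem m (mem_univ x))
    refine ⟨n, ?_⟩
    rw [← Int.cast_smul_eq_zsmul ℚ] at hn
    simpa using hn
  choose n hn using hb1
  have hb0 : ((b : ℤ) : ℚ) ≠ 0 := by
    have h1 := nonZeroDivisors.coe_ne_zero b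
    exact_mod_cast h1
  have h1 : n = 0 := by
    refine hno n ?_ ?_
    · intro x
      have h2 : ((n (bar x) : ℤ) : ℚ) = ((-n x : ℤ) : ℚ) := by
        push_cast
        rw [hn, hn]
        change (b : ℤ) * (a (bar x) - a (bar (bar x))) = -((b : ℤ) * (a x - a (bar x)))
        rw [hbar]
        ring
      exact_mod_cast h2
    · intro γ
      have h2 : ((∑ x, n x * D (act γ x) : ℤ) : ℚ) =
          (b : ℤ) * ∑ x, m x * (D (act γ x) : ℚ) := by
        push_cast
        rw [mul_sum]
        refine sum_congr rfl fun x _ => ?_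
        rw [hn, mul_assoc]
      have h3 : f (fun x => (D (act γ x) : ℚ)) = 0 := by
        have h4 : (fun x => (D (act γ x) : ℚ)) ∈
            Submodule.span ℚ (Set.range fun (γ : Γ) (x : X) => (D (act γ x) : ℚ)) :=
          Submodule.subset_span ⟨γ, rfl⟩
        exact hf h4
      rw [hm (fun x => (D (act γ x) : ℚ)) (fun x => by rw [hD]; push_cast; rfl), h3, mul_zero,
        mul_zero] at h2
      exact_mod_cast h2
  have h2 : ∀ x, m x = 0 := by
    intro x
    have h3 : (0 : ℚ) = (b : ℤ) * m x := by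
      rw [← hn, h1]
      simp
    exact (mul_eq_zero.1 h3.symm).resolve_left hb0
  have h3 := hm h hh
  simp only [h2, zero_mul, sum_const_zero] at h3
  exact hf0 (by linarith)

end Pool.Agent.Q29.OS
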