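import Mathlib
import Pool.Agent.Q29.OS.Chars
import Pool.Agent.Q29.OS.Pairs
import Pool.Agent.Q29.OS.Span
import Pool.Agent.Q29.OS.Defs
import Pool.Agent.Q29.OS.Rel
import Pool.Agent.Q29.OS.Tower
import Pool.Agent.TH170.MF.Field
import Pool.Agent.Y4.K.MainK

/-!
# The Hodge conjecture for abelian varieties with admissible signatures without relations
-/

set_option autoImplicit false
set_option linter.unusedSectionVars false

namespace Pool.Agent.Q29.OS

open NumberField Module Finset Pool.Agent.H204R3.CM Pool.Agent.H977R3.CM Pool.Agent.TH170.CM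
  Pool.Agent.H194R3.CM Pool.Agent.W437.HC

section

variable {g : ℕ} {Z : Matrix (Fin g) (Fin g) ℂ} {A : Type} [CommRing A]
  {θ : A →+* Matrix (Fin g ⊕ Fin g) (Fin g ⊕ Fin g) ℚ}

theorem isEndo_iff (ψ : Matrix (Fin g ⊕ Fin g) (Fin g ⊕ Fin g) ℚ)
    (N : Matrix (Fin g) (Fin g) ℂ) :
    Pool.Agent.W437.HQ.IsEndo Z ψ N ↔ IsEndomorphism Z ψ N := Iff.rfl

theorem cen_of (h : IsCentre Z θ) : Pool.Agent.Y4.K.Cen Z θ := ⟨h.endo, h.comm, h.onto⟩

theorem relA_eq (χ : A →+* ℂ) : Pool.Agent.Y4.K.relA Z θ χ = relMult Z θ χ := rfl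

end

/-- At an indefinite coprime place of relative rank greater than one the place is not definite. -/
theorem Admissible.exists_lt {E : Type} [Field E] {m : ℕ} {M : (E →+* ℂ) → ℤ}
    (h : Admissible m M) (hm : m ≠ 1) : ∃ φ, M φ < m := by
  obtain ⟨φ, hφ⟩ := h.2.1
  refine ⟨φ, lt_of_le_of_ne (h.1 φ).2.1 fun h1 => hm ?_⟩
  rw [h1, sub_self, Int.zero_ediv, isCoprime_zero_right] at hφ
  have h2 : ((m : ℤ) + m) / 2 = m := by omega
  rw [h2] at hφ
  have h3 := Int.isUnit_iff_natAbs_eq.1 hφ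
  simpa using h3

/-- **The Hodge conjecture for abelian varieties with admissible signatures without relations.** -/
theorem hodgeForSignature {ι : Type} [Fintype ι] {E : ι → Type} [∀ i, Field (E i)]
    [∀ i, NumberField (E i)] [∀ i, IsCMField (E i)] (hind : PairwiseIndep E) {m : ι → ℕ}
    {M : ∀ i, (E i →+* ℂ) → ℤ} {Φ : ∀ i, Set (E i →+* ℂ)} (hΦ : ∀ i, IsCMType (Φ i))
    (hadm : ∀ i, Admissible (m i) (M i)) (hno : ∀ i, NoRelations (M i) (Φ i)) :
    HodgeForSignature E m M Φ := by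
  classical
  intro g Z R _ θ hS n k f hf
  obtain ⟨c, hc⟩ : ∃ c : ∀ i, (E i →+* ℂ) → ((∀ i, E i) × R →+* ℂ),
      c = fun i φ => (chr i φ).comp (RingHom.fst _ _) := ⟨_, rfl⟩
  obtain ⟨rl, hrl⟩ : ∃ rl : (R →+* ℂ) → ((∀ i, E i) × R →+* ℂ),
      rl = fun ψ => ψ.comp (RingHom.snd _ _) := ⟨_, rfl⟩
  have hcases : ∀ χ : (∀ i, E i) × R →+* ℂ, (∃ i φ, χ = c i φ) ∨ ∃ ψ, χ = rl ψ := by
    intro χ
    obtain ⟨ψ, rfl⟩ | ⟨ψ, rfl⟩ := exists_factor χ
    · obtain ⟨i, φ, rfl⟩ := exists_chr ψ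
      exact Or.inl ⟨i, φ, by rw [hc]⟩
    · exact Or.inr ⟨ψ, by rw [hrl]⟩
  have hr : ∀ i φ, 2 * (relMult Z θ (c i φ) : ℤ) = m i + sgn (Φ i) φ * M i φ := by
    rw [hc]
    exact hS.mult
  have hMc : ∀ i φ, M i (ComplexEmbedding.conjugate φ) = M i φ := fun i φ =>
    ((hadm i).1 φ).2.2.2
  have hrc : ∀ i φ, 2 * (relMult Z θ (c i (ComplexEmbedding.conjugate φ)) : ℤ) =
      m i - sgn (Φ i) φ * M i φ := by
    intro i φ
    rw [hr, sgn_conj' (hΦ i), hMc]
    ring
  have hstar : ∀ i (φ : E i →+* ℂ), (starRingEnd ℂ).comp (c i φ) =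
      c i (ComplexEmbedding.conjugate φ) := by
    rw [hc]
    exact fun i φ => rfl
  have hcomp : ∀ (σ : ℂ ≃+* ℂ) i (φ : E i →+* ℂ), (σ : ℂ →+* ℂ).comp (c i φ) =
      c i ((σ : ℂ →+* ℂ).comp φ) := by
    rw [hc]
    exact fun σ i φ => rfl
  have hrstar : ∀ ψ, (starRingEnd ℂ).comp (rl ψ) = rl ψ := by
    rw [hrl]
    intro ψ
    change ((starRingEnd ℂ).comp ψ).comp (RingHom.snd _ _) = _
    rw [hS.real]
  have hrcomp : ∀ (σ : ℂ ≃+* ℂ) ψ, (σ : ℂ →+* ℂ).comp (rl ψ) = rl ((σ : ℂ →+* ℂ).comp ψ) := by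
    rw [hrl]
    exact fun σ ψ => rfl
  have hr1 : ∀ ψ, relMult Z θ (rl ψ) = 1 := by
    rw [hrl]
    exact hS.one
  -- sums and differences
  have hsum : ∀ i φ, (relMult Z θ (c i φ) : ℤ) +
      relMult Z θ (c i (ComplexEmbedding.conjugate φ)) = m i := by
    intro i φ
    linarith [hr i φ, hrc i φ]
  have hdiff : ∀ i φ, (relMult Z θ (c i φ) : ℤ) -
      relMult Z θ (c i (ComplexEmbedding.conjugate φ)) = sgn (Φ i) φ * M i φ := by
    intro i φ
    linarith [hr i φ, hrc i φ]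
  -- indefinite places
  have hindef : ∀ i φ, M i φ < m i → ¬ (relMult Z θ (c i φ) = 0 ∨
      relMult Z θ (c i (ComplexEmbedding.conjugate φ)) = 0) := by
    intro i φ hlt hdef
    have h3 := hr i φ
    have h4 := hrc i φ
    have h7 := ((hadm i).1 φ).1
    rcases sgn_sq (Φ i) φ with h8 | h8 <;> rw [h8] at h3 h4 <;> rcases hdef with h9 | h9
    · rw [h9] at h3
      push_cast at h3
      linarith
    · rw [h9] at h4
      push_cast at h4
      linarith
    · rw [h9] at h3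
      push_cast at h3
      linarith
    · rw [h9] at h4
      push_cast at h4
      linarith
  refine Pool.Agent.Y4.K.mainK hS.symm hS.pos (cen_of hS.centre) ?_ ?_ ?_ f hf
  · -- coprimality
    intro χ
    obtain ⟨i, φ, rfl⟩ | ⟨ψ, rfl⟩ := hcases χ
    · obtain ⟨φ₁, hcop⟩ := (hadm i).2.1
      obtain ⟨σ, hσ⟩ := Pool.Agent.TH170.MF.exists_comp_eq (E i) φ φ₁
      refine ⟨σ, ?_⟩
      rw [hcomp, hσ, hstar, relA_eq, relA_eq, ← Nat.isCoprime_iff_coprime]
      have h1 := hr i φ₁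
      have h2 := hrc i φ₁
      rcases sgn_sq (Φ i) φ₁ with h5 | h5
      · rw [h5, one_mul] at h1 h2
        have h3 : (relMult Z θ (c i φ₁) : ℤ) = (m i + M i φ₁) / 2 := by omega
        have h4 : (relMult Z θ (c i (ComplexEmbedding.conjugate φ₁)) : ℤ) =
            (m i - M i φ₁) / 2 := by omega
        rw [h3, h4]
        exact hcop
      · rw [h5, neg_one_mul] at h1 h2
        have h3 : (relMult Z θ (c i φ₁) : ℤ) = (m i - M i φ₁) / 2 := by omega
        have h4 : (relMult Z θ (c i (ComplexEmbedding.conjugate φ₁)) : ℤ) =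
            (m i + M i φ₁) / 2 := by omega
        rw [h3, h4]
        exact hcop.symm
    · refine ⟨RingEquiv.refl ℂ, ?_⟩
      rw [hrcomp, hrstar, relA_eq, hr1]
      exact Nat.coprime_one_left 1
  · -- separation
    intro χ ψ hψ1 hψ2 heq hrank hex
    obtain ⟨i, φ, rfl⟩ | ⟨χ', rfl⟩ := hcases χ
    · rw [hstar, relA_eq, relA_eq] at hrank
      have hm1 : m i ≠ 1 := by
        intro h1
        apply hrank
        have h2 := hsum i φ
        rw [h1] at h2
        exact_mod_cast h2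
      obtain ⟨j, ψ', rfl⟩ | ⟨ψ', rfl⟩ := hcases ψ
      · rw [hstar, hstar, relA_eq, relA_eq, relA_eq, relA_eq] at heq
        have hmm : m i = m j := by
          have h1 := hsum i φ
          have h2 := hsum j ψ'
          have h3 : (m i : ℤ) = m j := by
            rw [← h1, ← h2]
            exact_mod_cast heq
          exact_mod_cast h3
        by_cases hij : i = j
        · subst hij
          rcases (hadm i).2.2 with h5 | h5 | h5
          · exact absurd h5 hm1
          · obtain ⟨σ, hσ⟩ := hex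
            refine ⟨σ, hσ, ?_⟩
            rintro ⟨hdef, -⟩
            rw [hcomp, hstar, relA_eq, relA_eq] at hdef
            exact hindef i _ (h5 _) hdef
          · obtain ⟨σ, hσ⟩ := h5 φ ψ' (fun h => hψ1 (by rw [h])) (fun h => hψ2 (by rw [h, hstar]))
            refine ⟨σ, ?_, ?_⟩
            · intro h6
              apply hσ
              rw [hcomp, hcomp, relA_eq, relA_eq] at h6
              have h7 := hr i ((σ : ℂ →+* ℂ).comp φ)
              have h8 := hr i ((σ : ℂ →+* ℂ).comp ψ')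
              rw [h6] at h7
              have h9 := ((hadm i).1 ((σ : ℂ →+* ℂ).comp φ)).1
              have h10 := ((hadm i).1 ((σ : ℂ →+* ℂ).comp ψ')).1
              rcases sgn_sq (Φ i) ((σ : ℂ →+* ℂ).comp φ) with h11 | h11 <;>
              rcases sgn_sq (Φ i) ((σ : ℂ →+* ℂ).comp ψ') with h12 | h12 <;>
              rw [h11] at h7 <;> rw [h12] at h8 <;> linarith
            · rintro ⟨hdef, hdef'⟩
              rw [hcomp, hstar, relA_eq, relA_eq] at hdef hdef'
              have h6 : ¬ M i ((σ : ℂ →+* ℂ).comp φ) < m i := fun h => hindef i _ h hdef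
              have h7 : ¬ M i ((σ : ℂ →+* ℂ).comp ψ') < m i := fun h => hindef i _ h hdef'
              have h8 := ((hadm i).1 ((σ : ℂ →+* ℂ).comp φ)).2.1
              have h9 := ((hadm i).1 ((σ : ℂ →+* ℂ).comp ψ')).2.1
              exact hσ (by linarith)
        · obtain ⟨φ₁, hφ₁⟩ := (hadm i).exists_lt hm1
          obtain ⟨σ₁, hσ₁⟩ := Pool.Agent.TH170.MF.exists_comp_eq (E i) φ φ₁
          by_cases hne : relMult Z θ (c i φ₁) = relMult Z θ (c j ((σ₁ : ℂ →+* ℂ).comp ψ'))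
          · obtain ⟨σ₂, h21, h22⟩ := hind i j hij φ₁ ((σ₁ : ℂ →+* ℂ).comp ψ')
            have h3 : ((σ₁.trans σ₂ : ℂ ≃+* ℂ) : ℂ →+* ℂ).comp φ = φ₁ := by
              have h4 : (σ₂ : ℂ →+* ℂ).comp φ₁ = φ₁ := RingHom.ext h21
              have h5 : ((σ₁.trans σ₂ : ℂ ≃+* ℂ) : ℂ →+* ℂ).comp φ =
                (σ₂ : ℂ →+* ℂ).comp ((σ₁ : ℂ →+* ℂ).comp φ) := rfl
              rw [h5, hσ₁, h4]
            have h4 : ((σ₁.trans σ₂ : ℂ ≃+* ℂ) : ℂ →+* ℂ).comp ψ' =
                ComplexEmbedding.conjugate ((σ₁ : ℂ →+* ℂ).comp ψ') := RingHom.ext h22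
            refine ⟨σ₁.trans σ₂, ?_, ?_⟩
            · rw [hcomp, hcomp, relA_eq, relA_eq, h3, h4, hne]
              intro h5
              have h6 := hdiff j ((σ₁ : ℂ →+* ℂ).comp ψ')
              rw [← h5, sub_self] at h6
              have h7 := ((hadm j).1 ((σ₁ : ℂ →+* ℂ).comp ψ')).1
              rcases sgn_sq (Φ j) ((σ₁ : ℂ →+* ℂ).comp ψ') with h8 | h8 <;> rw [h8] at h6 <;>
                linarith
            · rintro ⟨hdef, -⟩
              rw [hcomp, hstar, relA_eq, relA_eq, h3] at hdef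
              exact hindef i _ hφ₁ hdef
          · refine ⟨σ₁, ?_, ?_⟩
            · rw [hcomp, hcomp, relA_eq, relA_eq, hσ₁]
              exact hne
            · rintro ⟨hdef, -⟩
              rw [hcomp, hstar, relA_eq, relA_eq, hσ₁] at hdef
              exact hindef i _ hφ₁ hdef
      · -- the relative rank two
        exfalso
        rw [hstar, hrstar, relA_eq, relA_eq, relA_eq, hr1] at heq
        have hm2 : m i = 2 := by
          have h1 := hsum i φ
          have h3 : (m i : ℤ) = 2 := by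
            rw [← h1]
            exact_mod_cast heq
          exact_mod_cast h3
        obtain ⟨φ₁, hφ₁⟩ := (hadm i).exists_lt hm1
        obtain ⟨h4, -, h5, -⟩ := (hadm i).1 φ₁
        rw [hm2] at hφ₁ h5
        push_cast at hφ₁ h5
        have h6 : M i φ₁ = 1 := by linarith
        rw [h6] at h5
        exact absurd h5 (by decide)
    · -- the first character is real
      obtain ⟨σ, hσ⟩ := hex
      refine ⟨σ, hσ, ?_⟩
      rintro ⟨hdef, -⟩
      rw [hrcomp, hrstar, relA_eq, hr1] at hdef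
      rcases hdef with h | h <;> exact one_ne_zero h
  · -- nondegeneracy
    intro h hodd
    refine mem_span_of_fst _ ?_ h ?_ ?_
    · intro σ ψ
      have h1 := hrcomp σ ψ
      rw [hrl] at h1
      have h2 := hr1 ((σ : ℂ →+* ℂ).comp ψ)
      have h3 := hrstar ((σ : ℂ →+* ℂ).comp ψ)
      rw [hrl] at h2 h3
      change (Pool.Agent.Y4.K.relA Z θ ((σ : ℂ →+* ℂ).comp (ψ.comp (RingHom.snd _ _))) : ℚ) -
        Pool.Agent.Y4.K.relA Z θ ((starRingEnd ℂ).comp
          ((σ : ℂ →+* ℂ).comp (ψ.comp (RingHom.snd _ _)))) = 0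
      rw [h1, h3, sub_self]
    · intro ψ
      have h1 := hrstar ψ
      rw [hrl] at h1
      have h2 := hodd (ψ.comp (RingHom.snd _ _))
      rw [h1] at h2
      linarith
    · let _ : Fintype ((∀ i, E i) →+* ℂ) := Fintype.ofEquiv _ (chrEquiv E)
      have hbar : ∀ χ : (∀ i, E i) →+* ℂ, (starRingEnd ℂ).comp ((starRingEnd ℂ).comp χ) = χ := by
        intro χ
        exact RingHom.ext fun x => Complex.conj_conj _
      obtain ⟨D, hD⟩ : ∃ D : ((∀ i, E i) →+* ℂ) → ℤ, D = fun χ =>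
        (relMult Z θ (χ.comp (RingHom.fst _ _)) : ℤ) -
          relMult Z θ (((starRingEnd ℂ).comp χ).comp (RingHom.fst _ _)) := ⟨_, rfl⟩
      have hDc : ∀ i φ, D (chr i φ) = sgn (Φ i) φ * M i φ := by
        intro i φ
        rw [← hdiff i φ, hD, hc]
        rfl
      have hcc : ∀ (σ : ℂ ≃+* ℂ) i (φ : E i →+* ℂ), (σ : ℂ →+* ℂ).comp (chr i φ) =
        chr i ((σ : ℂ →+* ℂ).comp φ) := fun σ i φ => rfl
      have hsc : ∀ i (φ : E i →+* ℂ), (starRingEnd ℂ).comp (chr i φ) =
        chr i (ComplexEmbedding.conjugate φ) := fun i φ => rfl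
      have key := mem_span_of_noRel (X := (∀ i, E i) →+* ℂ) (Γ := ℂ ≃+* ℂ)
        (fun χ => (starRingEnd ℂ).comp χ) hbar (fun σ χ => (σ : ℂ →+* ℂ).comp χ) D ?_ ?_
        (fun ψ => h (ψ.comp (RingHom.fst _ _))) fun ψ => hodd (ψ.comp (RingHom.fst _ _))
      · have h1 : (fun (σ : ℂ ≃+* ℂ) (χ : (∀ i, E i) →+* ℂ) =>
            (D ((σ : ℂ →+* ℂ).comp χ) : ℚ)) = fun (σ : ℂ ≃+* ℂ) (χ : (∀ i, E i) →+* ℂ) =>
            (Pool.Agent.Y4.K.relA Z θ ((σ : ℂ →+* ℂ).comp (χ.comp (RingHom.fst _ _))) : ℚ) -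
              Pool.Agent.Y4.K.relA Z θ ((starRingEnd ℂ).comp
                ((σ : ℂ →+* ℂ).comp (χ.comp (RingHom.fst _ _)))) := by
          funext σ χ
          rw [hD]
          push_cast
          rfl
        rw [← h1]
        exact key
      · intro σ χ
        obtain ⟨i, φ, rfl⟩ := exists_chr χ
        rw [hsc, hcc, hcc, comp_conj, hDc, hDc, sgn_conj' (hΦ i), hMc, neg_mul]
      · intro b hb hrel
        have h2 : ∀ i, (fun φ : E i →+* ℂ => b (chr i φ)) = 0 := by
          intro i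
          refine hno i _ (fun φ => hb (chr i φ)) fun σ => ?_
          refine relation_splits hind (D := fun i φ => sgn (Φ i) φ * M i φ)
            (m := fun i φ => b (chr i φ)) (fun i φ => ?_) (fun σ => ?_) i σ
          · rw [sgn_conj' (hΦ i), hMc, neg_mul]
          · rw [← hrel σ, ← Fintype.sum_sigma']
            refine Fintype.sum_equiv (chrEquiv E) _ _ fun p => ?_
            rw [chrEquiv_apply, hcc, hDc]
        funext χ
        obtain ⟨i, φ, rfl⟩ := exists_chr χ
        exact congrFun (h2 i) φ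

end Pool.Agent.Q29.OS
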