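import Mathlib
import Pool.Agent.Q29.OS.Main
import Pool.Agent.Q29.DP.Deg
import Pool.Agent.Q29.DP.Laws

/-!
# One abelian variety: an odd number decides
-/

set_option autoImplicit false
set_option linter.unusedSectionVars false

namespace Pool.Agent.Q29.OS

open NumberField Module Finset Pool.Agent.H204R3.CM Pool.Agent.H977R3.CM Pool.Agent.TH170.CM
  Pool.Agent.H194R3.CM Pool.Agent.W437.HC Pool.Agent.Q29.DP

theorem NoRelations.mul {E : Type} [Field E] [NumberField E] {M : (E →+* ℂ) → ℤ}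
    {Φ : Set (E →+* ℂ)} (h : NoRelations M Φ) {d : ℤ} (hd : d ≠ 0) :
    NoRelations (fun φ => d * M φ) Φ := by
  intro c hc hrel
  refine h c hc fun σ => ?_
  have h1 := hrel σ
  have h2 : d * ∑ φ, c φ * (sgn Φ ((σ : ℂ →+* ℂ).comp φ) * M ((σ : ℂ →+* ℂ).comp φ)) = 0 := by
    rw [← h1, mul_sum]
    exact sum_congr rfl fun φ _ => by ring
  exact (mul_eq_zero.1 h2).resolve_left hd

section

variable {g : ℕ} {Z : Matrix (Fin g) (Fin g) ℂ} {A B : Type} [CommRing A] [CommRing B]
  {θ : A →+* Matrix (Fin g ⊕ Fin g) (Fin g ⊕ Fin g) ℚ} {π : B →+* A}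

theorem isCentre_comp (h : IsCentre Z θ) (hπ : Function.Surjective π) :
    IsCentre Z (θ.comp π) where
  endo b := h.endo (π b)
  comm b := h.comm (π b)
  onto ψ N h1 h2 := by
    obtain ⟨a, ha⟩ := h.onto ψ N h1 h2
    obtain ⟨b, rfl⟩ := hπ a
    exact ⟨b, ha⟩

theorem eigenspace_comp (hπ : Function.Surjective π) (χ : A →+* ℂ) :
    eigenspace Z (θ.comp π) (χ.comp π) = eigenspace Z θ χ := by
  ext t
  change (∀ (b : B) (N : Matrix (Fin g) (Fin g) ℂ), IsEndomorphism Z (θ (π b)) N →
    N.mulVec t = χ (π b) • t) ↔ ∀ (a : A) (N : Matrix (Fin g) (Fin g) ℂ),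
      IsEndomorphism Z (θ a) N → N.mulVec t = χ a • t
  constructor
  · intro h a N hN
    obtain ⟨b, rfl⟩ := hπ a
    exact h b N hN
  · intro h b N hN
    exact h (π b) N hN

theorem component_comp (hπ : Function.Surjective π) (χ : A →+* ℂ) :
    component Z (θ.comp π) (χ.comp π) = component Z θ χ := by
  ext c
  change (_ ∧ ∀ b : B, (θ (π b)).map (fun x : ℚ => (x : ℂ)) * c = χ (π b) • c) ↔
    (_ ∧ ∀ a : A, (θ a).map (fun x : ℚ => (x : ℂ)) * c = χ a • c)
  refine and_congr Iff.rfl ⟨fun h a => ?_, fun h b => h (π b)⟩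
  obtain ⟨b, rfl⟩ := hπ a
  exact h b

theorem relMult_comp (hπ : Function.Surjective π) (χ : A →+* ℂ) :
    relMult Z (θ.comp π) (χ.comp π) = relMult Z θ χ := by
  unfold relMult
  rw [eigenspace_comp hπ, component_comp hπ]

end

/-- The number of the infinite places of a subfield of index two is even if the degree of the field
is at least eight and a power of two. -/
theorem card_places_even {F E : Type*} [Field F] [NumberField F] [IsCMField F] [Field E]
    [NumberField E] [IsCMField E] [Algebra F E] (k : ℕ) (hk : finrank ℚ E = 2 ^ k) (hk3 : 3 ≤ k)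
    (h2 : finrank F E = 2) : Even (Fintype.card (InfinitePlace F)) := by
  have h1 := IsTotallyComplex.finrank (K := F)
  have h3 := finrank_mul_finrank ℚ F E
  rw [h2, hk, h1] at h3
  have h7 := InfinitePlace.card_eq_nrRealPlaces_add_nrComplexPlaces F
  rw [IsTotallyComplex.nrRealPlaces_eq_zero, zero_add] at h7
  have h4 : (2 : ℕ) ^ k = 2 * (2 * (2 * 2 ^ (k - 3))) := by
    rw [← pow_succ', ← pow_succ', ← pow_succ']
    congr 1
    omega
  exact ⟨2 ^ (k - 3), by omega⟩

open Classical in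
/-- The parity of the sum of the multiplicities over the places of a good subfield. -/
theorem oddSum_of_odd {F E : Type*} [Field F] [NumberField F] [IsCMField F] [Field E]
    [NumberField E] [IsCMField E] [Algebra F E] (hgood : GoodSubfield F E)
    {M : (E →+* ℂ) → ℤ} {Φ : Set (E →+* ℂ)} {m : ℤ} (hm : Odd m) {r : (E →+* ℂ) → ℤ}
    (hr : ∀ φ, sgn Φ φ * M φ = 2 * r φ - m)
    (hodd : Odd (∑ v : InfinitePlace F, ∑ φ : E →+* ℂ with φ.comp (algebraMap F E) = v.embedding,
      r φ)) : OddSum F M Φ := by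
  obtain ⟨k, l, hk, hl, h1l, hcase⟩ := hgood.index
  have h1 : ∀ τ : F →+* ℂ, fibreSum F M Φ τ =
      2 * (∑ φ : E →+* ℂ with φ.comp (algebraMap F E) = τ, r φ - 2 ^ (l - 1) * m) := by
    intro τ
    unfold fibreSum
    rw [sum_congr rfl fun φ _ => hr φ, sum_sub_distrib, sum_const, card_ext F l hl, ← mul_sum,
      nsmul_eq_mul]
    have h2 : (2 : ℤ) ^ l = 2 * 2 ^ (l - 1) := by
      rw [← pow_succ']
      congr 1
      omega
    push_cast
    rw [h2]
    ring
  have h3 : ∀ τ : F →+* ℂ, halfSum F M Φ τ =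
      ((∑ φ : E →+* ℂ with φ.comp (algebraMap F E) = τ, r φ : ℤ) : ZMod 2) -
        (2 : ZMod 2) ^ (l - 1) * (m : ZMod 2) := by
    intro τ
    unfold halfSum
    rw [h1, Int.mul_ediv_cancel_left _ two_ne_zero]
    push_cast
    rfl
  have h5 : (2 : ZMod 2) = 0 := by decide
  unfold OddSum
  simp only [h3]
  rw [sum_sub_distrib, sum_const, ← Int.cast_sum]
  have h6 : (univ : Finset (InfinitePlace F)).card • ((2 : ZMod 2) ^ (l - 1) * (m : ZMod 2)) =
      0 := by
    rcases hcase with h | ⟨h, h3k, -⟩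
    · have h7 : l - 1 ≠ 0 := by omega
      rw [h5, zero_pow h7, zero_mul, smul_zero]
    · obtain ⟨c, hc⟩ := card_places_even (F := F) (E := E) k hk h3k (by rw [hl, h, pow_one])
      rw [card_univ, hc, ← two_mul, mul_smul, two_smul, nsmul_eq_mul]
      have h8 : ∀ x : ZMod 2, x + x = 0 := by decide
      rw [h8]
  rw [h6, sub_zero]
  obtain ⟨c, hc⟩ := hodd
  rw [hc]
  push_cast
  rw [h5, zero_mul, zero_add]
  exact one_ne_zero

/-- The relative multiplicities `r` of the embeddings of `E` have the odd sum `m` at every place, they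
are coprime at one place, and if `m > 1` then they are positive (no place is definite) or `E` has
only one indefinite place. -/
def IsAdmissible {E : Type} [Field E] (m : ℕ) (r : (E →+* ℂ) → ℕ) : Prop :=
  Odd m ∧ (∀ φ, r φ + r (ComplexEmbedding.conjugate φ) = m) ∧
  (∃ φ, Nat.Coprime (r φ) (r (ComplexEmbedding.conjugate φ))) ∧
  (m = 1 ∨ (∀ φ, 0 < r φ) ∨ ∃ φ₁, ∀ φ, 0 < r φ → 0 < r (ComplexEmbedding.conjugate φ) →
    φ = φ₁ ∨ φ = ComplexEmbedding.conjugate φ₁)

open Classical in
/-- **One abelian variety.** -/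
theorem hodge_one {E : Type} [Field E] [NumberField E] [IsCMField E]
    (F : IntermediateField ℚ E) [IsCMField F] (hgood : GoodSubfield F E) {g : ℕ}
    {Z : Matrix (Fin g) (Fin g) ℂ} {θ : E →+* Matrix (Fin g ⊕ Fin g) (Fin g ⊕ Fin g) ℚ}
    (hsymm : Z.transpose = Z) (hpos : (Z.map Complex.im).PosDef) (hcen : IsCentre Z θ) {m : ℕ}
    (hadm : IsAdmissible m (fun φ => relMult Z θ φ))
    (hodd : Odd (∑ v : InfinitePlace F, ∑ φ : E →+* ℂ with
      φ.comp (algebraMap F E) = v.embedding, relMult Z θ φ))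
    (n k : ℕ) (f : (Fin n → Fin g ⊕ Fin g → ℚ) [⋀^Fin k × Fin 2]→ₗ[ℚ] ℚ)
    (hf : IsHodge (perPow Z n) f) : f ∈ divisorial (perPow Z n) k := by
  obtain ⟨r, hr⟩ : ∃ r : (E →+* ℂ) → ℕ, r = fun φ => relMult Z θ φ := ⟨_, rfl⟩
  rw [← hr] at hadm
  obtain ⟨hm, hrank, ⟨φ₀, hcop⟩, hdef⟩ := hadm
  have hcc : ∀ φ : E →+* ℂ, ComplexEmbedding.conjugate (ComplexEmbedding.conjugate φ) = φ :=
    fun φ => RingHom.ext fun x => Complex.conj_conj _
  have hne : ∀ φ, r φ ≠ r (ComplexEmbedding.conjugate φ) := by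
    intro φ h
    have h1 := hrank φ
    rw [← h] at h1
    obtain ⟨c, hc⟩ := hm
    omega
  obtain ⟨Φ, hΦdef⟩ : ∃ Φ : Set (E →+* ℂ), Φ = {φ | r (ComplexEmbedding.conjugate φ) < r φ} :=
    ⟨_, rfl⟩
  obtain ⟨M, hMdef⟩ : ∃ M : (E →+* ℂ) → ℤ,
      M = fun φ => |(r φ : ℤ) - r (ComplexEmbedding.conjugate φ)| := ⟨_, rfl⟩
  have hmem : ∀ φ, φ ∈ Φ ↔ r (ComplexEmbedding.conjugate φ) < r φ := by
    intro φ
    rw [hΦdef]
    rfl
  have hΦ : IsCMType Φ := by
    intro φ
    rw [hmem, hmem, hcc]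
    have h1 := hne φ
    omega
  have hsgn : ∀ φ, sgn Φ φ * M φ = (r φ : ℤ) - r (ComplexEmbedding.conjugate φ) := by
    intro φ
    have h1 := hne φ
    rw [hMdef]
    unfold sgn
    by_cases h : φ ∈ Φ
    · rw [if_pos h, one_mul]
      rw [hmem] at h
      exact abs_of_pos (by omega)
    · rw [if_neg h]
      rw [hmem] at h
      have h2 : |(r φ : ℤ) - r (ComplexEmbedding.conjugate φ)| =
        -((r φ : ℤ) - r (ComplexEmbedding.conjugate φ)) := abs_of_neg (by omega)
      change -1 * |(r φ : ℤ) - r (ComplexEmbedding.conjugate φ)| = _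
      rw [h2]
      ring
  have hMval : ∀ φ, M φ = (r φ : ℤ) - r (ComplexEmbedding.conjugate φ) ∨
      M φ = r (ComplexEmbedding.conjugate φ) - (r φ : ℤ) := by
    intro φ
    rw [hMdef]
    rcases abs_choice ((r φ : ℤ) - r (ComplexEmbedding.conjugate φ)) with h | h
    · exact Or.inl h
    · exact Or.inr (h.trans (neg_sub _ _))
  have hMpos : ∀ φ, 0 < M φ := by
    intro φ
    rw [hMdef]
    have h1 := hne φ
    exact abs_pos.2 (by omega)
  have hMconj : ∀ φ, M (ComplexEmbedding.conjugate φ) = M φ := by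
    intro φ
    rw [hMdef]
    change |(r (ComplexEmbedding.conjugate φ) : ℤ) -
      r (ComplexEmbedding.conjugate (ComplexEmbedding.conjugate φ))| = _
    rw [hcc, abs_sub_comm]
  have hMparity : ∀ φ, Even ((m : ℤ) + M φ) := by
    intro φ
    have h1 := hrank φ
    rcases hMval φ with h | h
    · exact ⟨r φ, by omega⟩
    · exact ⟨r (ComplexEmbedding.conjugate φ), by omega⟩
  have hModd : ∀ φ, Odd (M φ) := by
    intro φ
    have h1 := hMparity φ
    have h2 : Odd (m : ℤ) := by exact_mod_cast hm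
    rw [Int.even_add] at h1
    rw [← Int.not_even_iff_odd] at h2 ⊢
    tauto
  have hMle : ∀ φ, M φ ≤ m := by
    intro φ
    have h1 := hrank φ
    rcases hMval φ with h | h <;> omega
  have hMlt : ∀ φ, 0 < r φ → 0 < r (ComplexEmbedding.conjugate φ) → M φ < m := by
    intro φ h2 h3
    have h1 := hrank φ
    rcases hMval φ with h | h <;> omega
  have hMeq : ∀ φ, ¬ (0 < r φ ∧ 0 < r (ComplexEmbedding.conjugate φ)) → M φ = m := by
    intro φ h2
    have h1 := hrank φ
    have h3 := hMpos φ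
    rcases hMval φ with h | h <;> omega
  have hA : Admissible m M := by
    refine ⟨fun φ => ⟨hMpos φ, hMle φ, hMparity φ, hMconj φ⟩, ⟨φ₀, ?_⟩, ?_⟩
    · have h1 := hrank φ₀
      have h5 := Nat.isCoprime_iff_coprime.2 hcop
      rcases hMval φ₀ with h | h
      · have h3 : ((m : ℤ) + M φ₀) / 2 = r φ₀ := by omega
        have h4 : ((m : ℤ) - M φ₀) / 2 = r (ComplexEmbedding.conjugate φ₀) := by omega
        rw [h3, h4]
        exact h5
      · have h3 : ((m : ℤ) + M φ₀) / 2 = r (ComplexEmbedding.conjugate φ₀) := by omega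
        have h4 : ((m : ℤ) - M φ₀) / 2 = r φ₀ := by omega
        rw [h3, h4]
        exact h5.symm
    · rcases hdef with h | h | ⟨φ₁, h⟩
      · exact Or.inl h
      · exact Or.inr (Or.inl fun φ => hMlt φ (h φ) (h _))
      · by_cases hm1 : m = 1
        · exact Or.inl hm1
        refine Or.inr (Or.inr fun φ ψ h1 h2 => ?_)
        have h3 : 0 < r φ₀ ∧ 0 < r (ComplexEmbedding.conjugate φ₀) := by
          have h4 := hrank φ₀
          rw [Nat.pos_iff_ne_zero, Nat.pos_iff_ne_zero]
          constructor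
          · intro h5
            rw [h5, Nat.coprime_zero_left] at hcop
            omega
          · intro h5
            rw [h5, Nat.coprime_zero_right] at hcop
            omega
        obtain ⟨σ, hσ⟩ := Pool.Agent.TH170.MF.exists_comp_eq E φ φ₀
        refine ⟨σ, ?_⟩
        have hinj : ∀ {a b : E →+* ℂ}, (σ : ℂ →+* ℂ).comp a = (σ : ℂ →+* ℂ).comp b → a = b := by
          intro a b hab
          exact RingHom.ext fun x => σ.injective (RingHom.congr_fun hab x)
        have h4 : (σ : ℂ →+* ℂ).comp ψ ≠ φ₀ := by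
          rw [← hσ]
          exact fun h5 => h1 (hinj h5)
        have h5 : (σ : ℂ →+* ℂ).comp ψ ≠ ComplexEmbedding.conjugate φ₀ := by
          rw [← hσ, ← comp_conj]
          exact fun h5 => h2 (hinj h5)
        have h6 : M ((σ : ℂ →+* ℂ).comp ψ) = m := by
          refine hMeq _ fun h7 => ?_
          have h8 := h φ₀ h3.1 h3.2
          have h9 := h _ h7.1 h7.2
          rcases h8 with h8 | h8 <;> rcases h9 with h9 | h9
          · exact h4 (h9.trans h8.symm)
          · exact h5 (by rw [h9, h8])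
          · exact h5 (by rw [h9, h8, hcc])
          · exact h4 (h9.trans h8.symm)
        rw [hσ, h6]
        exact (hMlt φ₀ h3.1 h3.2).ne
  have hno : NoRelations M Φ := by
    refine noRelations_of_test hModd hMconj hΦ ⟨F, inferInstance, Or.inl ⟨hgood, ?_⟩⟩
    refine oddSum_of_odd hgood (m := m) (r := fun φ => (r φ : ℤ)) (by exact_mod_cast hm)
      (fun φ => ?_) ?_
    · rw [hsgn]
      have h1 := hrank φ
      omega
    · rw [hr]
      exact_mod_cast hodd
  let π : (∀ _ : Unit, E) × PUnit.{1} →+* E := (Pi.evalRingHom (fun _ : Unit => E) ()).comp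
    (RingHom.fst _ _)
  have hπ : Function.Surjective π := fun x => ⟨(fun _ => x, PUnit.unit), rfl⟩
  have key := hodgeForSignature (pairwiseIndep_unit E) (m := fun _ => m) (M := fun _ => M)
    (Φ := fun _ => Φ) (fun _ => hΦ) (fun _ => hA) fun _ => hno
  refine key g Z PUnit.{1} (θ.comp π) ⟨hsymm, hpos, isCentre_comp hcen hπ, ?_, ?_, ?_⟩ n k f hf
  · intro i φ
    have h1 : (φ.comp (Pi.evalRingHom (fun _ : Unit => E) i)).comp (RingHom.fst _ PUnit.{1}) =
      φ.comp π := rfl
    rw [h1, relMult_comp hπ, hsgn, hr]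
    have h2 := hrank φ
    rw [hr] at h2
    have h3 : relMult Z θ φ + relMult Z θ (ComplexEmbedding.conjugate φ) = m := h2
    change 2 * (relMult Z θ φ : ℤ) = m + ((relMult Z θ φ : ℤ) -
      relMult Z θ (ComplexEmbedding.conjugate φ))
    omega
  · intro χ
    exfalso
    have h1 := χ.map_one
    have h2 := χ.map_zero
    have h3 : (1 : PUnit.{1}) = 0 := rfl
    rw [h3, h2] at h1
    exact zero_ne_one h1
  · intro χ
    exfalso
    have h1 := χ.map_one
    have h2 := χ.map_zero
    have h3 : (1 : PUnit.{1}) = 0 := rfl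
    rw [h3, h2] at h1
    exact zero_ne_one h1

end Pool.Agent.Q29.OS
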