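import Mathlib
import Pool.Agent.Q29.OS.Main

/-!
# One abelian variety whose centre is a CM field
-/

set_option autoImplicit false
set_option linter.unusedSectionVars false

namespace Pool.Agent.Q29.OS

open NumberField Module Finset Pool.Agent.H204R3.CM Pool.Agent.H977R3.CM Pool.Agent.TH170.CM
  Pool.Agent.H194R3.CM Pool.Agent.W437.HC

/-- The relative multiplicities `r` of the embeddings of `E` are admissible for the relative rank
`m`: `r φ + r φ̄ = m`, the two numbers are coprime at one place, and, if `m > 1`, all `r φ` are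
positive (no place is definite) or `E` has only one indefinite place. -/
def AdmissibleMult {E : Type} [Field E] (m : ℕ) (r : (E →+* ℂ) → ℕ) : Prop :=
  (∀ φ, r φ + r (ComplexEmbedding.conjugate φ) = m) ∧
  (∃ φ, Nat.Coprime (r φ) (r (ComplexEmbedding.conjugate φ))) ∧
  (m = 1 ∨ (∀ φ, 0 < r φ) ∨ ∃ φ₁, ∀ φ, 0 < r φ → 0 < r (ComplexEmbedding.conjugate φ) →
    φ = φ₁ ∨ φ = ComplexEmbedding.conjugate φ₁)

/-- **One abelian variety.** -/
theorem hodge_single {E : Type} [Field E] [NumberField E] [IsCMField E] {g : ℕ}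
    {Z : Matrix (Fin g) (Fin g) ℂ} {θ : E →+* Matrix (Fin g ⊕ Fin g) (Fin g ⊕ Fin g) ℚ}
    (hsymm : Z.transpose = Z) (hpos : (Z.map Complex.im).PosDef) (hcen : IsCentre Z θ) {m : ℕ}
    (hadm : AdmissibleMult m (fun φ => relMult Z θ φ))
    (hno : NoRelationsOf fun φ : E →+* ℂ => (relMult Z θ φ : ℤ) -
      relMult Z θ (ComplexEmbedding.conjugate φ))
    (n k : ℕ) (f : (Fin n → Fin g ⊕ Fin g → ℚ) [⋀^Fin k × Fin 2]→ₗ[ℚ] ℚ)
    (hf : IsHodge (perPow Z n) f) : f ∈ divisorial (perPow Z n) k := by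
  classical
  obtain ⟨r, hr⟩ : ∃ r : (E →+* ℂ) → ℕ, r = fun φ => relMult Z θ φ := ⟨_, rfl⟩
  rw [← hr] at hadm
  obtain ⟨hrank, ⟨φ₀, hcop⟩, hdef⟩ := hadm
  have hr' : ∀ φ, Pool.Agent.Y4.K.relA Z θ φ = r φ := fun φ => by
    rw [hr]
    rfl
  have hst : ∀ φ : E →+* ℂ, (starRingEnd ℂ).comp φ = ComplexEmbedding.conjugate φ := fun φ => rfl
  have hcc : ∀ φ : E →+* ℂ, ComplexEmbedding.conjugate (ComplexEmbedding.conjugate φ) = φ :=
    fun φ => RingHom.ext fun x => Complex.conj_conj _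
  have hpos₀ : m ≠ 1 → 0 < r φ₀ ∧ 0 < r (ComplexEmbedding.conjugate φ₀) := by
    intro hm1
    have h4 := hrank φ₀
    rw [Nat.pos_iff_ne_zero, Nat.pos_iff_ne_zero]
    constructor
    · intro h5
      rw [h5, Nat.coprime_zero_left] at hcop
      omega
    · intro h5
      rw [h5, Nat.coprime_zero_right] at hcop
      omega
  refine Pool.Agent.Y4.K.mainK hsymm hpos (cen_of hcen) ?_ ?_ ?_ f hf
  · intro χ
    obtain ⟨σ, hσ⟩ := Pool.Agent.TH170.MF.exists_comp_eq E χ φ₀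
    refine ⟨σ, ?_⟩
    rw [hσ, hst, hr', hr']
    exact hcop
  · intro χ ψ hψ1 hψ2 heq hrank1 hex
    rw [hst, hr', hr'] at hrank1
    have hm1 : m ≠ 1 := by rw [← hrank χ]; exact hrank1
    rcases hdef with h | h | ⟨φ₁, h⟩
    · exact absurd h hm1
    · obtain ⟨σ, hσ⟩ := hex
      refine ⟨σ, hσ, ?_⟩
      rintro ⟨hd, -⟩
      rw [hst, hr', hr'] at hd
      rcases hd with h1 | h1
      · exact absurd h1 (h _).ne'
      · exact absurd h1 (h _).ne'
    · obtain ⟨σ, hσ⟩ := Pool.Agent.TH170.MF.exists_comp_eq E χ φ₀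
      obtain ⟨h3, h3'⟩ := hpos₀ hm1
      have hinj : ∀ {a b : E →+* ℂ}, (σ : ℂ →+* ℂ).comp a = (σ : ℂ →+* ℂ).comp b → a = b := by
        intro a b hab
        exact RingHom.ext fun x => σ.injective (RingHom.congr_fun hab x)
      have h4 : (σ : ℂ →+* ℂ).comp ψ ≠ φ₀ := by
        rw [← hσ]
        exact fun h5 => hψ1 (hinj h5)
      have h5 : (σ : ℂ →+* ℂ).comp ψ ≠ ComplexEmbedding.conjugate φ₀ := by
        rw [← hσ, ← comp_conj]
        exact fun h5 => hψ2 (hinj h5)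
      have h6 : ¬ (0 < r ((σ : ℂ →+* ℂ).comp ψ) ∧
          0 < r (ComplexEmbedding.conjugate ((σ : ℂ →+* ℂ).comp ψ))) := by
        rintro ⟨h7, h7'⟩
        have h8 := h φ₀ h3 h3'
        have h9 := h _ h7 h7'
        rcases h8 with h8 | h8 <;> rcases h9 with h9 | h9
        · exact h4 (h9.trans h8.symm)
        · exact h5 (by rw [h9, h8])
        · exact h5 (by rw [h9, h8, hcc])
        · exact h4 (h9.trans h8.symm)
      refine ⟨σ, ?_, ?_⟩
      · rw [hr', hr', hσ]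
        intro h7
        have h8 := hrank φ₀
        have h9 := hrank ((σ : ℂ →+* ℂ).comp ψ)
        omega
      · rintro ⟨hd, -⟩
        rw [hst, hr', hr', hσ] at hd
        rcases hd with h1 | h1
        · exact absurd h1 h3.ne'
        · exact absurd h1 h3'.ne'
  · intro h hodd
    have key := mem_span_of_noRel (X := E →+* ℂ) (Γ := ℂ ≃+* ℂ) (fun χ => (starRingEnd ℂ).comp χ)
      hcc (fun σ χ => (σ : ℂ →+* ℂ).comp χ)
      (fun φ => (r φ : ℤ) - r (ComplexEmbedding.conjugate φ)) ?_ ?_ h hodd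
    · have h1 : (fun (σ : ℂ ≃+* ℂ) (χ : E →+* ℂ) =>
          ((((r ((σ : ℂ →+* ℂ).comp χ) : ℤ) -
            r (ComplexEmbedding.conjugate ((σ : ℂ →+* ℂ).comp χ)) : ℤ)) : ℚ)) =
          fun (σ : ℂ ≃+* ℂ) (χ : E →+* ℂ) =>
          (Pool.Agent.Y4.K.relA Z θ ((σ : ℂ →+* ℂ).comp χ) : ℚ) -
            Pool.Agent.Y4.K.relA Z θ ((starRingEnd ℂ).comp ((σ : ℂ →+* ℂ).comp χ)) := by
        funext σ χ
        rw [hst, hr', hr']
        push_cast
        rfl
      rw [← h1]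
      exact key
    · intro σ χ
      change ((r ((σ : ℂ →+* ℂ).comp (ComplexEmbedding.conjugate χ)) : ℤ)) -
        r (ComplexEmbedding.conjugate ((σ : ℂ →+* ℂ).comp (ComplexEmbedding.conjugate χ))) =
          -((r ((σ : ℂ →+* ℂ).comp χ) : ℤ) -
            r (ComplexEmbedding.conjugate ((σ : ℂ →+* ℂ).comp χ)))
      rw [comp_conj, hcc]
      ring
    · intro c hc hrel
      refine hno c hc fun σ => ?_
      rw [← hrel σ, hr]

end Pool.Agent.Q29.OS
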