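import Mathlib
import Pool.Agent.Q29.OS.Tower
import Pool.Agent.Q29.OS.Single
import Pool.Agent.Q29.OS.One

/-!
# CM fields of degree `2 p ^ k` which contain an imaginary quadratic field
-/

set_option autoImplicit false
set_option linter.unusedSectionVars false

namespace Pool.Agent.Q29.OS

open NumberField Module Finset Pool.Agent.H204R3.CM Pool.Agent.H977R3.CM Pool.Agent.TH170.CM
  Pool.Agent.H194R3.CM Pool.Agent.W437.HC Pool.Agent.Q29.DP

open Classical in
/-- The multiplicities of the extensions of an embedding and of its conjugate. -/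
theorem sum_conj_ext {F E : Type} [Field F] [NumberField F] [IsCMField F] [Field E]
    [NumberField E] [IsCMField E] [Algebra F E] (r : (E →+* ℂ) → ℤ) (τ : F →+* ℂ) :
    ∑ φ : E →+* ℂ with φ.comp (algebraMap F E) = ComplexEmbedding.conjugate τ, r φ =
      ∑ φ : E →+* ℂ with φ.comp (algebraMap F E) = τ, r (ComplexEmbedding.conjugate φ) := by
  have hcc : ∀ φ : E →+* ℂ, ComplexEmbedding.conjugate (ComplexEmbedding.conjugate φ) = φ :=
    fun φ => RingHom.ext fun x => Complex.conj_conj _
  have hccF : ComplexEmbedding.conjugate (ComplexEmbedding.conjugate τ) = τ :=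
    RingHom.ext fun x => Complex.conj_conj _
  have hres : ∀ φ : E →+* ℂ, (ComplexEmbedding.conjugate φ).comp (algebraMap F E) =
      ComplexEmbedding.conjugate (φ.comp (algebraMap F E)) := fun φ => rfl
  refine sum_bij' (fun φ _ => ComplexEmbedding.conjugate φ)
    (fun φ _ => ComplexEmbedding.conjugate φ) ?_ ?_ (fun φ _ => hcc φ) (fun φ _ => hcc φ) ?_
  · intro φ hφ
    rw [mem_filter] at hφ ⊢
    exact ⟨mem_univ _, by rw [hres, hφ.2, hccF]⟩
  · intro φ hφ
    rw [mem_filter] at hφ ⊢
    exact ⟨mem_univ _, by rw [hres, hφ.2]⟩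
  · intro φ _
    rw [hcc]

open Classical in
/-- **The prime law.** -/
theorem hodge_prime {E : Type} [Field E] [NumberField E] [IsCMField E]
    (F : IntermediateField ℚ E) [IsCMField F] (hF : finrank ℚ F = 2) {p k : ℕ} (hp : p.Prime)
    (hdeg : finrank F E = p ^ k) (h2 : 2 < p ^ k) {g : ℕ}
    {Z : Matrix (Fin g) (Fin g) ℂ} {θ : E →+* Matrix (Fin g ⊕ Fin g) (Fin g ⊕ Fin g) ℚ}
    (hsymm : Z.transpose = Z) (hpos : (Z.map Complex.im).PosDef) (hcen : IsCentre Z θ) {m : ℕ}
    (hm : p = 2 → Odd m) (hadm : AdmissibleMult m (fun φ => relMult Z θ φ)) (τ : F →+* ℂ)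
    (hτ : ¬ p ∣ ∑ φ : E →+* ℂ with φ.comp (algebraMap F E) = τ, relMult Z θ φ)
    (n l : ℕ) (f : (Fin n → Fin g ⊕ Fin g → ℚ) [⋀^Fin l × Fin 2]→ₗ[ℚ] ℚ)
    (hf : IsHodge (perPow Z n) f) : f ∈ divisorial (perPow Z n) l := by
  have hrank : ∀ φ : E →+* ℂ, relMult Z θ φ + relMult Z θ (ComplexEmbedding.conjugate φ) = m :=
    hadm.1
  by_cases hp2 : p = 2
  · subst hp2
    have hk : 2 ≤ k := by
      by_contra hk
      have h3 : (2 : ℕ) ^ k ≤ 2 ^ 1 := Nat.pow_le_pow_right (by norm_num) (by omega)
      omega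
    have hgood : GoodSubfield F E := by
      refine ⟨⟨k + 1, ?_⟩, Or.inl ?_⟩
      · rw [← finrank_mul_finrank ℚ F E, hF, hdeg, pow_succ']
      · rw [hdeg]
        have h3 : (2 : ℕ) ^ 2 ≤ 2 ^ k := Nat.pow_le_pow_right (by norm_num) hk
        omega
    refine hodge_one F hgood hsymm hpos hcen ⟨hm rfl, hadm⟩ ?_ n l f hf
    -- there is only one place
    have hcard : Fintype.card (InfinitePlace F) = 1 := by
      have h1 := IsTotallyComplex.finrank (K := F)
      have h7 := InfinitePlace.card_eq_nrRealPlaces_add_nrComplexPlaces F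
      rw [IsTotallyComplex.nrRealPlaces_eq_zero, zero_add] at h7
      omega
    obtain ⟨v, hv⟩ := Fintype.card_eq_one_iff.1 hcard
    have h4 : (univ : Finset (InfinitePlace F)) = {v} := by
      ext w
      simp [hv w]
    rw [h4, sum_singleton]
    have h5 : Odd (∑ φ : E →+* ℂ with φ.comp (algebraMap F E) = τ, relMult Z θ φ) := by
      rw [← Nat.not_even_iff_odd, even_iff_two_dvd]
      exact hτ
    rcases embedding_quadratic (F := F) hF τ v.embedding with h6 | h6
    · rw [h6]
      exact h5
    · rw [h6]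
      have h7 := sum_conj_ext (fun φ : E →+* ℂ => (relMult Z θ φ : ℤ)) τ
      have h8 : (∑ φ : E →+* ℂ with φ.comp (algebraMap F E) = τ,
          (relMult Z θ (ComplexEmbedding.conjugate φ) : ℤ)) =
          2 ^ k * m - ∑ φ : E →+* ℂ with φ.comp (algebraMap F E) = τ, (relMult Z θ φ : ℤ) := by
        have h9 : ∀ φ : E →+* ℂ, (relMult Z θ (ComplexEmbedding.conjugate φ) : ℤ) =
            m - relMult Z θ φ := by
          intro φ
          have h10 := hrank φ
          omega
        simp only [h9]
        rw [sum_sub_distrib, sum_const, card_ext F k hdeg, nsmul_eq_mul]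
        push_cast
        rfl
      rw [h8] at h7
      have h9 : ((∑ φ : E →+* ℂ with φ.comp (algebraMap F E) = ComplexEmbedding.conjugate τ,
          relMult Z θ φ : ℕ) : ℤ) =
          2 ^ k * m - ((∑ φ : E →+* ℂ with φ.comp (algebraMap F E) = τ, relMult Z θ φ : ℕ) : ℤ) := by
        push_cast
        exact h7
      obtain ⟨c, hc⟩ := h5
      rw [hc] at h9
      obtain ⟨k', rfl⟩ := Nat.exists_eq_add_of_le hk
      rw [pow_add] at h9
      have h11 : Odd ((∑ φ : E →+* ℂ with φ.comp (algebraMap F E) =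
          ComplexEmbedding.conjugate τ, relMult Z θ φ : ℕ) : ℤ) := by
        rw [h9]
        refine ⟨2 * 2 ^ k' * m - c - 1, ?_⟩
        push_cast
        ring
      exact_mod_cast h11
  · refine hodge_single hsymm hpos hcen hadm ?_ n l f hf
    have hcc : ∀ φ : E →+* ℂ, ComplexEmbedding.conjugate (ComplexEmbedding.conjugate φ) = φ :=
      fun φ => RingHom.ext fun x => Complex.conj_conj _
    refine noRelationsOf_prime (F := F) p k hp hp2 hF hdeg (fun φ => ?_) τ fun hdvd => hτ ?_
    · rw [hcc]
      ring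
    · have hk : 1 ≤ k := by
        by_contra hk
        have h3 : k = 0 := by omega
        rw [h3, pow_zero] at h2
        omega
      have h9 : ∀ φ : E →+* ℂ, (relMult Z θ φ : ℤ) -
          relMult Z θ (ComplexEmbedding.conjugate φ) = 2 * relMult Z θ φ - m := by
        intro φ
        have h10 := hrank φ
        omega
      have hcardp : (univ.filter (fun φ : E →+* ℂ => φ.comp (algebraMap F E) = τ)).card =
          p ^ k := by
        obtain ⟨L, _, _, j, hj⟩ := exists_galois (fun _ : Unit => E)
        have h : ∀ ψ : E →+* ℂ, ∃ φ : E →+* L, j.comp φ = ψ := hj ()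
        have h₀ : ∀ τ : F →+* ℂ, ∃ y : F →+* L, j.comp y = τ := by
          intro τ
          obtain ⟨ψ, rfl⟩ := exists_extension (E := E) τ
          obtain ⟨φ, rfl⟩ := h ψ
          exact ⟨φ.comp (algebraMap F E), rfl⟩
        obtain ⟨z, rfl⟩ := h₀ τ
        have hcards : Fintype.card (E →+* L) = Fintype.card (F →+* L) * p ^ k := by
          rw [← hdeg]
          exact card_tower j h h₀
        have h4 := card_fibre (G := L ≃ₐ[ℚ] L) (fun φ : E →+* L => φ.comp (algebraMap F E))
          (fun g y => rfl) (p ^ k) hcards z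
        rw [← h4]
        symm
        refine card_bij (fun (y : E →+* L) _ => j.comp y) ?_ ?_ ?_
        · intro y hy
          rw [mem_filter] at hy ⊢
          refine ⟨mem_univ _, ?_⟩
          rw [← hy.2]
          rfl
        · intro a _ b _ hab
          exact RingHom.ext fun x => j.injective (RingHom.congr_fun hab x)
        · intro φ hφ
          obtain ⟨y, rfl⟩ := h φ
          refine ⟨y, ?_, rfl⟩
          rw [mem_filter] at hφ ⊢
          refine ⟨mem_univ _, RingHom.ext fun x => j.injective ?_⟩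
          exact RingHom.congr_fun hφ.2 x
      simp only [h9] at hdvd
      rw [sum_sub_distrib, sum_const, hcardp, ← mul_sum, nsmul_eq_mul] at hdvd
      have h12 : (p : ℤ) ∣ ((p ^ k : ℕ) : ℤ) * (m : ℤ) := by
        refine Dvd.dvd.mul_right ?_ _
        exact_mod_cast dvd_pow_self p (by omega : k ≠ 0)
      have h13 : (p : ℤ) ∣ 2 * ∑ φ : E →+* ℂ with φ.comp (algebraMap F E) = τ,
          (relMult Z θ φ : ℤ) := by
        have h14 := dvd_add hdvd h12
        rwa [sub_add_cancel] at h14
      have h15 : IsCoprime (p : ℤ) 2 := by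
        have h16 : Nat.Coprime p 2 := (Nat.coprime_primes hp Nat.prime_two).2 hp2
        exact_mod_cast Nat.isCoprime_iff_coprime.2 h16
      have h17 := h15.dvd_of_dvd_mul_left h13
      have h18 : (p : ℤ) ∣ ((∑ φ : E →+* ℂ with φ.comp (algebraMap F E) = τ,
          relMult Z θ φ : ℕ) : ℤ) := by
        push_cast
        exact h17
      exact_mod_cast h18

end Pool.Agent.Q29.OS
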