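import Mathlib
import Pool.Agent.Q29.OS.Half
import Pool.Agent.Q29.OS.PrimeLaw
import Pool.Agent.Q29.AB.All
import Pool.Agent.Y1.HZ.Main
import Pool.Agent.Y1.KN.All

/-!
# The law for the signatures of families of CM fields, and how many signatures satisfy it
-/

set_option autoImplicit false
set_option linter.unusedSectionVars false

namespace Pool.Agent.Q29.OS

open NumberField Module Finset Pool.Agent.H204R3.CM Pool.Agent.H977R3.CM Pool.Agent.TH170.CM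
  Pool.Agent.Y1.HZ Pool.Agent.Q29.DP Pool.Agent.Q29.AB

/-- The Hodge conjecture for all powers of all abelian varieties with the signature `m`, `M`, `Φ`
(`HodgeForSignature`); and if all weights are `1` also for the products of the abelian varieties of
CM type `Φ` with unrelated varieties (`HodgeTimes`). -/
def Law {ι : Type} (E : ι → Type) [∀ i, Field (E i)] [∀ i, NumberField (E i)] (m : ι → ℕ)
    (M : ∀ i, (E i →+* ℂ) → ℤ) (Φ : ∀ i, Set (E i →+* ℂ)) : Prop :=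
  HodgeForSignature E m M Φ ∧ ((∀ i φ, M i φ = 1) → HodgeTimes Φ)

section

variable {ι : Type} [Fintype ι] {E : ι → Type} [∀ i, Field (E i)] [∀ i, NumberField (E i)]
  [∀ i, IsCMField (E i)] {m : ι → ℕ} {M : ∀ i, (E i →+* ℂ) → ℤ} {Φ : ∀ i, Set (E i →+* ℂ)}

theorem law_of_noRelations (hind : PairwiseIndep E) (hΦ : ∀ i, IsCMType (Φ i))
    (hadm : ∀ i, Admissible (m i) (M i)) (hno : ∀ i, NoRelations (M i) (Φ i)) : Law E m M Φ := by
  refine ⟨hodgeForSignature hind hΦ hadm hno, fun hM => ?_⟩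
  refine hodgeTimes_of_not_degenerate hΦ hind fun i => ?_
  rintro ⟨b, hb0, hbc, hrel⟩
  refine hb0 (hno i b hbc fun σ => ?_)
  rw [← hrel σ]
  exact sum_congr rfl fun φ _ => by rw [hM, mul_one]

end

theorem ncard_families {ι : Type} [Fintype ι] {X : ι → Type} (S : ∀ i, Set (X i)) :
    {Φ : ∀ i, X i | ∀ i, Φ i ∈ S i}.ncard = ∏ i, (S i).ncard := by
  have e : {Φ : ∀ i, X i | ∀ i, Φ i ∈ S i} ≃ ∀ i, S i := Equiv.subtypePiEquivPi
  rw [← Nat.card_coe_set_eq, Nat.card_congr e, Nat.card_pi]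
  exact prod_congr rfl fun i _ => Nat.card_coe_set_eq _

section

variable {ι : Type} [Fintype ι] {E : ι → Type} [∀ i, Field (E i)] [∀ i, NumberField (E i)]
  [∀ i, IsCMField (E i)] {m : ι → ℕ} {M : ∀ i, (E i →+* ℂ) → ℤ}

/-- The families of types without relations. -/
theorem prod_le_law (hind : PairwiseIndep E) (hadm : ∀ i, Admissible (m i) (M i)) :
    ∏ i, {Φ : Set (E i →+* ℂ) | IsCMType Φ ∧ NoRelations (M i) Φ}.ncard ≤
      {Φ : ∀ i, Set (E i →+* ℂ) | (∀ i, IsCMType (Φ i)) ∧ Law E m M Φ}.ncard := by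
  rw [← ncard_families]
  refine Set.ncard_le_ncard ?_ (Set.toFinite _)
  intro Φ hΦ
  exact ⟨fun i => (hΦ i).1, law_of_noRelations hind (fun i => (hΦ i).1) hadm fun i => (hΦ i).2⟩

/-- The factor and the weights of admissible weights `d * M`. -/
theorem factor_of_admissible {E : Type} [Field E] [NumberField E] {m : ℕ} {d : ℤ}
    {M : (E →+* ℂ) → ℤ} (h : Admissible m (fun φ => d * M φ)) :
    d ≠ 0 ∧ ∀ φ, M (ComplexEmbedding.conjugate φ) = M φ := by
  obtain ⟨φ₀⟩ : Nonempty (E →+* ℂ) := inferInstance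
  have hd : d ≠ 0 := by
    intro h0
    have h1 : 0 < d * M φ₀ := (h.1 φ₀).1
    rw [h0, zero_mul] at h1
    exact lt_irrefl _ h1
  exact ⟨hd, fun φ => mul_left_cancel₀ hd (h.1 φ).2.2.2⟩

theorem law_half (hind : PairwiseIndep E) (F : ∀ i, IntermediateField ℚ (E i))
    [∀ i, IsCMField (F i)] {d : ι → ℤ} {g : ι → ℕ}
    (hadm : ∀ i, Admissible (m i) (fun φ => d i * M i φ))
    (hg : ∀ i, finrank ℚ (E i) = 2 * g i) (hgood : ∀ i, GoodFor (F i) (M i)) :
    2 ^ (∑ i, g i) ≤ 2 ^ Fintype.card ι * {Φ : ∀ i, Set (E i →+* ℂ) | (∀ i, IsCMType (Φ i)) ∧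
      Law E m (fun i φ => d i * M i φ) Φ}.ncard := by
  refine le_trans ?_ (Nat.mul_le_mul_left _ (prod_le_law hind hadm))
  calc 2 ^ (∑ i, g i) = ∏ i, 2 ^ g i := (prod_pow_eq_pow_sum _ _ _).symm
    _ ≤ ∏ i, 2 * {Φ : Set (E i →+* ℂ) | IsCMType Φ ∧
        NoRelations (fun φ => d i * M i φ) Φ}.ncard := by
      refine prod_le_prod' fun i _ => ?_
      obtain ⟨hd, hMc⟩ := factor_of_admissible (hadm i)
      refine (half_goodFor hMc (hg i) (hgood i)).trans (Nat.mul_le_mul_left 2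
        (Set.ncard_le_ncard ?_ (Set.toFinite _)))
      rintro Φ ⟨h1, h2⟩
      exact ⟨h1, h2.mul hd⟩
    _ = _ := by rw [prod_mul_distrib, prod_const, card_univ]

/-- At least 16 percent of all types of abelian CM fields of large degree have no relations. -/
theorem law_abelian : ∃ g₀ : ℕ, ∀ (ι : Type) [Fintype ι] (E : ι → Type) [∀ i, Field (E i)]
    [∀ i, NumberField (E i)] [∀ i, IsCMField (E i)] [∀ i, IsGalois ℚ (E i)] (m : ι → ℕ)
    (d : ι → ℤ) (M : ∀ i, (E i →+* ℂ) → ℤ) (g : ι → ℕ), PairwiseIndep E →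
    (∀ i, ∀ a b : E i ≃ₐ[ℚ] E i, a * b = b * a) → (∀ i φ, Odd (M i φ)) →
    (∀ i, Admissible (m i) (fun φ => d i * M i φ)) → (∀ i, g₀ ≤ g i) →
    (∀ i, finrank ℚ (E i) = 2 * g i) →
    (4 / 25 : ℝ) ^ Fintype.card ι * 2 ^ (∑ i, g i) ≤
      (({Φ : ∀ i, Set (E i →+* ℂ) | (∀ i, IsCMType (Φ i)) ∧
        Law E m (fun i φ => d i * M i φ) Φ}.ncard : ℕ) : ℝ) := by
  obtain ⟨g₀, h⟩ := fieldTheoremW_holds
  refine ⟨g₀, ?_⟩
  intro ι _ E _ _ _ _ m d M g hind hab hM hadm hg0 hg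
  refine le_trans ?_ (Nat.cast_le.2 (prod_le_law hind hadm))
  rw [Nat.cast_prod]
  calc (4 / 25 : ℝ) ^ Fintype.card ι * 2 ^ (∑ i, g i) = ∏ i, (4 / 25 : ℝ) * 2 ^ g i := by
        rw [prod_mul_distrib, prod_const, card_univ, prod_pow_eq_pow_sum]
    _ ≤ _ := by
      refine prod_le_prod (fun i _ => by positivity) fun i _ => ?_
      obtain ⟨hd, hMc⟩ := factor_of_admissible (hadm i)
      refine (h (E i) (M i) (g i) (hab i) (hM i) hMc (hg0 i) (hg i)).trans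
        (Nat.cast_le.2 (Set.ncard_le_ncard ?_ (Set.toFinite _)))
      rintro Φ ⟨h1, h2⟩
      exact ⟨h1, h2.mul hd⟩

open Pool.Agent.Y1.KN in
/-- Almost all families of types of CM fields with few CM subfields. -/
theorem law_almostAll : ∃ C : ℝ, 0 ≤ C ∧ ∀ (ι : Type) [Fintype ι] (E : ι → Type)
    [∀ i, Field (E i)] [∀ i, NumberField (E i)] [∀ i, IsCMField (E i)] (m : ι → ℕ)
    (M : ∀ i, (E i →+* ℂ) → ℤ) (n g p : ι → ℕ), PairwiseIndep E →
    (∀ i, Admissible (m i) (M i)) → (∀ i, n i ≠ 0) → (∀ i φ, M i φ ∣ (n i : ℤ)) →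
    (∀ i, finrank ℚ (E i) = 2 * g i) → (∀ i, p i ∣ g i ∧ (p i = 1 ∨ (p i).Prime)) →
    (({Φ : ∀ i, Set (E i →+* ℂ) | (∀ i, IsCMType (Φ i)) ∧ ¬ Law E m M Φ}.ncard : ℕ) : ℝ) ≤
      2 ^ (∑ i, g i) * ∑ i, C * (n i : ℝ) ^ 2 * rate (E i) (g i) (p i) := by
  obtain ⟨C, hC0, hC⟩ := families_holds
  refine ⟨C, hC0, ?_⟩
  intro ι _ E _ _ _ m M n g p hind hadm hn hMn hg hp
  exact hC ι E M n g p (fun i φ => ((hadm i).1 φ).2.2.2) hn hMn hg hp (fun Φ => Law E m M Φ)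
    fun Φ hΦ hnd => law_of_noRelations hind hΦ hadm fun i => noRelations_of_notMem (hΦ i) (hnd i)

end

end Pool.Agent.Q29.OS
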